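import Pool.Agent.Helper92.MQ.Cnt
import Pool.Agent.Y19.QT.Defs

/-!
# The squarefree part of a product, on average (helper92)
-/

set_option autoImplicit false

open Finset

namespace Pool.Agent.Helper92.MQ

open Pool.Agent.Y19.QT (sqf mem_sqf)

theorem exists_sf (n : ℤ) : ∃ D g : ℤ, Squarefree D ∧ (n ≠ 0 → g ≠ 0 ∧ n = D * g ^ 2) := by
  by_cases hn : n = 0
  · exact ⟨1, 1, squarefree_one, fun h => absurd hn h⟩
  obtain ⟨a, b, hab, ha⟩ := Nat.sq_mul_squarefree n.natAbs
  have hb : b ≠ 0 := by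
    rintro rfl
    rw [zero_pow (by norm_num), zero_mul] at hab
    exact hn (Int.natAbs_eq_zero.1 hab.symm)
  refine ⟨n.sign * a, b, ?_, fun _ => ⟨by exact_mod_cast hb, ?_⟩⟩
  · rw [← Int.squarefree_natAbs, Int.natAbs_mul, Int.natAbs_sign_of_ne_zero hn, one_mul,
      Int.natAbs_natCast]
    exact ha
  · have h1 : (n.natAbs : ℤ) = (b : ℤ) ^ 2 * a := by
      rw [← hab]
      push_cast
      ring
    calc n = n.sign * n.natAbs := (Int.sign_mul_natAbs n).symm
      _ = _ := by rw [h1]; ring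

/-- the squarefree part -/
noncomputable def sf (n : ℤ) : ℤ := (exists_sf n).choose

theorem sf_squarefree (n : ℤ) : Squarefree (sf n) := by
  obtain ⟨g, h1, h2⟩ := (exists_sf n).choose_spec
  exact h1

theorem sf_spec {n : ℤ} (hn : n ≠ 0) : ∃ g : ℤ, g ≠ 0 ∧ n = sf n * g ^ 2 := by
  obtain ⟨g, h1, h2⟩ := (exists_sf n).choose_spec
  exact ⟨g, h2 hn⟩

theorem sf_abs_le {n : ℤ} (hn : n ≠ 0) : |sf n| ≤ |n| := by
  obtain ⟨g, h1, h2⟩ := sf_spec hn
  have h3 : 1 ≤ g ^ 2 := by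
    have : 0 < g ^ 2 := by positivity
    omega
  calc |sf n| = |sf n| * 1 := (mul_one _).symm
    _ ≤ |sf n| * g ^ 2 := mul_le_mul_of_nonneg_left h3 (abs_nonneg _)
    _ = |n| := by
      conv_rhs => rw [h2, abs_mul, abs_of_nonneg (by positivity : (0 : ℤ) ≤ g ^ 2)]

theorem sf_mul_square {m n : ℤ} (hm : m ≠ 0) (hn : n ≠ 0) (h : sf m = sf n) : IsSquare (m * n) := by
  obtain ⟨g, -, h1⟩ := sf_spec hm
  obtain ⟨g', -, h2⟩ := sf_spec hn
  refine ⟨sf m * g * g', ?_⟩
  rw [h1, h2, ← h]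
  have : sf (sf m * g ^ 2) = sf m := by rw [← h1]
  rw [this]
  ring

theorem sf_one : sf 1 = 1 := by
  obtain ⟨g, h1, h2⟩ := sf_spec (one_ne_zero : (1 : ℤ) ≠ 0)
  have h3 : IsUnit (sf 1) := IsUnit.of_mul_eq_one _ h2.symm
  rcases Int.isUnit_iff.1 h3 with h | h
  · exact h
  · exfalso
    rw [h] at h2
    nlinarith [sq_nonneg g]

section
variable {ι : Type} [Fintype ι] [DecidableEq ι]

/-- the tuples of squarefree integers up to `X` in absolute value -/
noncomputable def box (ι : Type) [Fintype ι] [DecidableEq ι] (X : ℕ) : Finset (ι → ℤ) :=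
  Fintype.piFinset fun _ => sqf X

theorem mem_box {X : ℕ} {d : ι → ℤ} : d ∈ box ι X ↔ ∀ i, |d i| ≤ X ∧ Squarefree (d i) := by
  simp [box, Fintype.mem_piFinset, mem_sqf]

theorem box_ne {X : ℕ} {d : ι → ℤ} (hd : d ∈ box ι X) (S : Finset ι) : ∏ i ∈ S, d i ≠ 0 :=
  Finset.prod_ne_zero_iff.2 fun i _ => ((mem_box.1 hd i).2).ne_zero

theorem sqf_card_le {X : ℕ} (hX : 1 ≤ X) : (sqf X).card ≤ 3 * X := by
  unfold sqf
  refine (Finset.card_filter_le _ _).trans ?_
  rw [Int.card_Icc]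
  omega

theorem box_card_le {X : ℕ} (hX : 1 ≤ X) : (box ι X).card ≤ (3 * X) ^ Fintype.card ι := by
  unfold box
  rw [Fintype.card_piFinset, Finset.prod_const, Finset.card_univ]
  exact Nat.pow_le_pow_left (sqf_card_le hX) _

theorem sf_mem {X : ℕ} {d : ι → ℤ} (hd : d ∈ box ι X) :
    sf (∏ i, d i) ∈ sqf (X ^ Fintype.card ι) := by
  rw [mem_sqf]
  refine ⟨?_, sf_squarefree _⟩
  refine (sf_abs_le (box_ne hd univ)).trans ?_
  rw [Finset.abs_prod]
  push_cast
  calc ∏ i, |d i| ≤ ∏ _i : ι, (X : ℤ) :=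
        Finset.prod_le_prod (fun i _ => abs_nonneg _) fun i _ => (mem_box.1 hd i).1
    _ = _ := by rw [Finset.prod_const, Finset.card_univ]

/-- the pairs of tuples with the same squarefree part -/
noncomputable def prs (ι : Type) [Fintype ι] [DecidableEq ι] (X : ℕ) :
    Finset ((ι → ℤ) × (ι → ℤ)) :=
  (box ι X ×ˢ box ι X).filter fun x => sf (∏ i, x.1 i) = sf (∏ i, x.2 i)

theorem prs_card_le {X : ℕ} (hX : 1 ≤ X) : ((prs ι X).card : ℝ) ≤
    (4 * X : ℝ) ^ Fintype.card ι * (1 + Real.log X) ^ (2 ^ (2 * Fintype.card ι)) := by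
  classical
  obtain ⟨m, hm⟩ : ∃ m, m = Fintype.card ι := ⟨_, rfl⟩
  have hcard : Fintype.card (ι ⊕ ι) = 2 * m := by
    rw [Fintype.card_sum, ← hm]
    ring
  have h1 : (prs ι X).card ≤ (sqt (ι ⊕ ι) X ×ˢ (univ : Finset (ι ⊕ ι → Bool))).card := by
    refine Finset.card_le_card_of_injOn
      (fun x => (fun i => (Sum.elim x.1 x.2 i).natAbs, fun i => decide (0 ≤ Sum.elim x.1 x.2 i)))
      ?_ ?_
    · intro x hx
      rw [Finset.mem_coe, prs, Finset.mem_filter, Finset.mem_product] at hx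
      obtain ⟨⟨hx1, hx2⟩, hx3⟩ := hx
      rw [Finset.mem_coe, Finset.mem_product]
      refine ⟨?_, Finset.mem_univ _⟩
      have hall : ∀ i, |Sum.elim x.1 x.2 i| ≤ X ∧ Squarefree (Sum.elim x.1 x.2 i) := by
        rintro (i | i)
        · exact mem_box.1 hx1 i
        · exact mem_box.1 hx2 i
      rw [mem_sqt]
      refine ⟨fun i => ⟨?_, ?_⟩, fun i => ?_, ?_⟩
      · exact Nat.pos_of_ne_zero (Int.natAbs_ne_zero.2 (hall i).2.ne_zero)
      · have := (hall i).1
        rw [Int.abs_eq_natAbs] at this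
        exact_mod_cast this
      · exact Int.squarefree_natAbs.2 (hall i).2
      · have h2 := sf_mul_square (box_ne hx1 univ) (box_ne hx2 univ) hx3
        obtain ⟨r, hr⟩ := h2
        refine ⟨r.natAbs, ?_⟩
        rw [← Int.natAbs_mul, ← hr, Fintype.prod_sum_type]
        simp only [Sum.elim_inl, Sum.elim_inr]
        rw [Int.natAbs_mul]
        congr 1
        · exact (map_prod Int.natAbsHom x.1 univ).symm
        · exact (map_prod Int.natAbsHom x.2 univ).symm
    · intro x _ y _ hxy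
      simp only [Prod.mk.injEq] at hxy
      obtain ⟨h2, h3⟩ := hxy
      have h4 : Sum.elim x.1 x.2 = Sum.elim y.1 y.2 := by
        funext i
        have h5 := congrFun h2 i
        have h6 := congrFun h3 i
        simp only [decide_eq_decide] at h6
        rcases Int.natAbs_eq_natAbs_iff.1 h5 with h | h
        · exact h
        · by_cases h7 : 0 ≤ Sum.elim x.1 x.2 i
          · have := h6.1 h7
            omega
          · have : ¬ 0 ≤ Sum.elim y.1 y.2 i := fun h8 => h7 (h6.2 h8)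
            omega
      have h7 : x.1 = y.1 := by
        funext i
        exact congrFun h4 (Sum.inl i)
      have h8 : x.2 = y.2 := by
        funext i
        exact congrFun h4 (Sum.inr i)
      exact Prod.ext h7 h8
  rw [Finset.card_product, Finset.card_univ, Fintype.card_fun, Fintype.card_bool, hcard] at h1
  have h2 := sqt_card_le hcard hX
  have h3 : ((prs ι X).card : ℝ) ≤ ((sqt (ι ⊕ ι) X).card : ℝ) * 2 ^ (2 * m) := by exact_mod_cast h1
  refine h3.trans ?_
  rw [← hm]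
  calc ((sqt (ι ⊕ ι) X).card : ℝ) * 2 ^ (2 * m)
      ≤ ((X : ℝ) ^ m * (1 + Real.log X) ^ (2 ^ (2 * m))) * 2 ^ (2 * m) :=
        mul_le_mul_of_nonneg_right h2 (by positivity)
    _ = _ := by
        have h4 : (4 : ℝ) ^ m = 2 ^ (2 * m) := by
          rw [pow_mul]
          norm_num
        rw [mul_pow, h4]
        ring

/-- the number of the tuples with squarefree part `D` -/
noncomputable def rep (ι : Type) [Fintype ι] [DecidableEq ι] (X : ℕ) (D : ℤ) : ℕ :=
  ((box ι X).filter fun d => sf (∏ i, d i) = D).card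

theorem rep_sq_sum (X : ℕ) :
    ∑ D ∈ sqf (X ^ Fintype.card ι), (rep ι X D : ℝ) ^ 2 = (prs ι X).card := by
  classical
  have h1 : (prs ι X).card = ∑ D ∈ sqf (X ^ Fintype.card ι),
      ((prs ι X).filter fun x => sf (∏ i, x.1 i) = D).card := by
    apply Finset.card_eq_sum_card_fiberwise
    intro x hx
    rw [Finset.mem_coe, prs, Finset.mem_filter, Finset.mem_product] at hx
    exact sf_mem hx.1.1
  rw [h1]
  push_cast
  refine Finset.sum_congr rfl fun D _ => ?_
  have h2 : (prs ι X).filter (fun x => sf (∏ i, x.1 i) = D) =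
      ((box ι X).filter fun d => sf (∏ i, d i) = D) ×ˢ
        ((box ι X).filter fun d => sf (∏ i, d i) = D) := by
    ext x
    simp only [prs, Finset.mem_filter, Finset.mem_product]
    constructor
    · rintro ⟨⟨⟨h3, h4⟩, h5⟩, h6⟩
      exact ⟨⟨h3, h6⟩, h4, h5.symm.trans h6⟩
    · rintro ⟨⟨h3, h6⟩, h4, h7⟩
      exact ⟨⟨⟨h3, h4⟩, h6.trans h7.symm⟩, h6⟩
  rw [h2, Finset.card_product, rep]
  push_cast
  ring

/-- Cauchy's inequality -/
theorem cs_box {X : ℕ} (hX : 1 ≤ X) (z : ℤ → ℝ) :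
    (∑ d ∈ box ι X, z (sf (∏ i, d i))) ^ 2 ≤
      (4 * X : ℝ) ^ Fintype.card ι * (1 + Real.log X) ^ (2 ^ (2 * Fintype.card ι)) *
        ∑ D ∈ sqf (X ^ Fintype.card ι), z D ^ 2 := by
  classical
  have h1 : ∑ d ∈ box ι X, z (sf (∏ i, d i)) =
      ∑ D ∈ sqf (X ^ Fintype.card ι), (rep ι X D : ℝ) * z D := by
    rw [← Finset.sum_fiberwise_of_maps_to (g := fun d : ι → ℤ => sf (∏ i, d i))
      (t := sqf (X ^ Fintype.card ι)) (fun d hd => sf_mem hd)]
    refine Finset.sum_congr rfl fun D _ => ?_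
    rw [rep, ← nsmul_eq_mul, ← Finset.sum_const]
    refine Finset.sum_congr rfl fun d hd => ?_
    rw [(Finset.mem_filter.1 hd).2]
  rw [h1]
  refine (Finset.sum_mul_sq_le_sq_mul_sq _ _ _).trans ?_
  rw [rep_sq_sum]
  exact mul_le_mul_of_nonneg_right (prs_card_le hX) (Finset.sum_nonneg fun _ _ => sq_nonneg _)

/-- the same for a part of the tuple -/
theorem cs_sub {X : ℕ} (hX : 1 ≤ X) (S : Finset ι) (z : ℤ → ℝ) (hz : ∀ D, 0 ≤ z D) :
    (∑ d ∈ box ι X, z (sf (∏ i ∈ S, d i))) ^ 2 ≤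
      ((3 * X : ℝ) ^ (Fintype.card ι - S.card)) ^ 2 *
      ((4 * X : ℝ) ^ S.card * (1 + Real.log X) ^ (2 ^ (2 * S.card)) *
        ∑ D ∈ sqf (X ^ S.card), z D ^ 2) := by
  classical
  have hcS : Fintype.card {i // i ∈ S} = S.card := Fintype.card_coe S
  have hcC : Fintype.card {i // i ∉ S} = Fintype.card ι - S.card := by
    rw [Fintype.card_subtype_compl, Fintype.card_coe]
  have hprod : ∀ d : ι → ℤ, ∏ i ∈ S, d i = ∏ i : {i // i ∈ S}, d i := fun d =>
    (Finset.prod_coe_sort S d).symm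
  have h1 : ∑ d ∈ box ι X, z (sf (∏ i ∈ S, d i)) ≤
      (3 * X : ℝ) ^ (Fintype.card ι - S.card) *
        ∑ e ∈ box {i // i ∈ S} X, z (sf (∏ i, e i)) := by
    rw [← Finset.sum_fiberwise_of_maps_to (g := fun (d : ι → ℤ) (i : {i // i ∈ S}) => d i)
      (t := box {i // i ∈ S} X) (fun d hd => by
        rw [mem_box] at hd ⊢
        exact fun i => hd i), Finset.mul_sum]
    refine Finset.sum_le_sum fun e _ => ?_
    have h2 : ∑ d ∈ (box ι X).filter (fun d => (fun i : {i // i ∈ S} => d i) = e),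
        z (sf (∏ i ∈ S, d i)) =
        ((box ι X).filter (fun d => (fun i : {i // i ∈ S} => d i) = e)).card *
          z (sf (∏ i, e i)) := by
      rw [← nsmul_eq_mul, ← Finset.sum_const]
      refine Finset.sum_congr rfl fun d hd => ?_
      rw [hprod, ← (Finset.mem_filter.1 hd).2]
    rw [h2]
    refine mul_le_mul_of_nonneg_right ?_ (hz _)
    have h3 : ((box ι X).filter (fun d => (fun i : {i // i ∈ S} => d i) = e)).card ≤
        (box {i // i ∉ S} X).card := by
      refine Finset.card_le_card_of_injOn (fun d i => d i) ?_ ?_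
      · intro d hd
        rw [Finset.mem_coe, Finset.mem_filter] at hd
        rw [Finset.mem_coe, mem_box]
        exact fun i => mem_box.1 hd.1 i
      · intro d hd d' hd' h
        rw [Finset.mem_coe, Finset.mem_filter] at hd hd'
        funext i
        by_cases hi : i ∈ S
        · have h4 := congrFun (hd.2.trans hd'.2.symm) ⟨i, hi⟩
          exact h4
        · have h4 := congrFun h ⟨i, hi⟩
          exact h4
    have h4 := h3.trans (box_card_le hX)
    rw [hcC] at h4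
    exact_mod_cast h4
  have h2 := cs_box (ι := {i // i ∈ S}) hX z
  rw [hcS] at h2
  have h3 : 0 ≤ ∑ d ∈ box ι X, z (sf (∏ i ∈ S, d i)) := Finset.sum_nonneg fun _ _ => hz _
  calc (∑ d ∈ box ι X, z (sf (∏ i ∈ S, d i))) ^ 2
      ≤ ((3 * X : ℝ) ^ (Fintype.card ι - S.card) *
        ∑ e ∈ box {i // i ∈ S} X, z (sf (∏ i, e i))) ^ 2 := pow_le_pow_left₀ h3 h1 2
    _ = ((3 * X : ℝ) ^ (Fintype.card ι - S.card)) ^ 2 *
        (∑ e ∈ box {i // i ∈ S} X, z (sf (∏ i, e i))) ^ 2 := mul_pow _ _ _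
    _ ≤ _ := mul_le_mul_of_nonneg_left h2 (by positivity)

end

end Pool.Agent.Helper92.MQ
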