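import Mathlib

/-!
# Tuples of squarefree integers whose product is a square (helper92)
-/

set_option autoImplicit false

open Finset

namespace Pool.Agent.Helper92.MQ

section
variable {ι : Type} [Fintype ι] [DecidableEq ι]

/-- the indices `i` with `p ∣ n i` -/
def supp (n : ι → ℕ) (p : ℕ) : Finset ι := univ.filter (fun i => p ∣ n i)

/-- the product of the primes dividing exactly the `n i` with `i ∈ T` -/
def part (n : ι → ℕ) (T : Finset ι) : ℕ :=
  ∏ p ∈ (∏ i, n i).primeFactors.filter (fun p => supp n p = T), p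

theorem mem_supp {n : ι → ℕ} {p : ℕ} {i : ι} : i ∈ supp n p ↔ p ∣ n i := by
  simp [supp]

theorem part_pos (n : ι → ℕ) (T : Finset ι) : 0 < part n T := by
  unfold part
  refine Finset.prod_pos fun p hp => ?_
  exact (Nat.prime_of_mem_primeFactors (Finset.mem_filter.1 hp).1).pos

theorem part_prod {n : ι → ℕ} (hn : ∀ i, Squarefree (n i)) (i : ι) :
    ∏ T ∈ univ.filter (fun T : Finset ι => i ∈ T), part n T = n i := by
  have h0 : ∀ i, n i ≠ 0 := fun i => (hn i).ne_zero
  have hP0 : (∏ i, n i) ≠ 0 := Finset.prod_ne_zero_iff.2 fun i _ => h0 i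
  have h1 : ∏ T ∈ univ.filter (fun T : Finset ι => i ∈ T), part n T =
      ∏ p ∈ (∏ i, n i).primeFactors.filter (fun p => i ∈ supp n p), p := by
    rw [← Finset.prod_fiberwise_of_maps_to (g := supp n)
      (t := univ.filter (fun T : Finset ι => i ∈ T))]
    · refine Finset.prod_congr rfl fun T hT => ?_
      unfold part
      rw [Finset.filter_filter]
      refine Finset.prod_congr ?_ fun _ _ => rfl
      ext p
      simp only [Finset.mem_filter]
      constructor
      · rintro ⟨h2, h3⟩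
        exact ⟨h2, by rw [h3]; exact (Finset.mem_filter.1 hT).2, h3⟩
      · rintro ⟨h2, -, h3⟩
        exact ⟨h2, h3⟩
    · intro p hp
      rw [Finset.mem_filter]
      exact ⟨Finset.mem_univ _, (Finset.mem_filter.1 hp).2⟩
  rw [h1]
  have h2 : (∏ i, n i).primeFactors.filter (fun p => i ∈ supp n p) = (n i).primeFactors := by
    ext p
    rw [Finset.mem_filter, mem_supp, Nat.mem_primeFactors, Nat.mem_primeFactors]
    constructor
    · rintro ⟨⟨h3, -, -⟩, h4⟩
      exact ⟨h3, h4, h0 i⟩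
    · rintro ⟨h3, h4, -⟩
      exact ⟨⟨h3, h4.trans (Finset.dvd_prod_of_mem n (Finset.mem_univ i)), hP0⟩, h4⟩
  rw [h2]
  exact Nat.prod_primeFactors_of_squarefree (hn i)

theorem prod_eq_part {n : ι → ℕ} (hn : ∀ i, Squarefree (n i)) :
    ∏ i, n i = ∏ T : Finset ι, part n T ^ T.card := by
  have h1 : ∏ i, n i = ∏ i, ∏ T ∈ univ.filter (fun T : Finset ι => i ∈ T), part n T :=
    Finset.prod_congr rfl fun i _ => (part_prod hn i).symm
  rw [h1, Finset.prod_comm' (t' := (univ : Finset (Finset ι))) (s' := fun T => T)]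
  · refine Finset.prod_congr rfl fun T _ => ?_
    rw [Finset.prod_const]
  · intro i T
    simp

/-- if the product is a square, only the `T` with at least two elements matter -/
theorem part_small {n : ι → ℕ} (hn : ∀ i, Squarefree (n i)) (hsq : IsSquare (∏ i, n i))
    {T : Finset ι} (hT : T.card ≤ 1) : part n T = 1 := by
  have h0 : ∀ i, n i ≠ 0 := fun i => (hn i).ne_zero
  unfold part
  refine Finset.prod_eq_one fun p hp => ?_
  exfalso
  rw [Finset.mem_filter] at hp
  obtain ⟨hp1, hp2⟩ := hp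
  have hpp := Nat.prime_of_mem_primeFactors hp1
  have hfac : (∏ i, n i).factorization p = T.card := by
    rw [Nat.factorization_prod (fun i _ => h0 i), Finsupp.coe_finset_sum, Finset.sum_apply, ← hp2]
    unfold supp
    rw [Finset.card_filter]
    refine Finset.sum_congr rfl fun i _ => ?_
    split_ifs with h
    · have h1 := (Nat.squarefree_iff_factorization_le_one (h0 i)).1 (hn i) p
      have h2 := (hpp.dvd_iff_one_le_factorization (h0 i)).1 h
      omega
    · exact Nat.factorization_eq_zero_of_not_dvd h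
  obtain ⟨r, hr⟩ := hsq
  have hr0 : r ≠ 0 := by
    rintro rfl
    have : (∏ i, n i) ≠ 0 := Finset.prod_ne_zero_iff.2 fun i _ => h0 i
    exact this (by rw [hr])
  have h3 : (∏ i, n i).factorization p = 2 * r.factorization p := by
    rw [hr, Nat.factorization_mul hr0 hr0, Finsupp.add_apply]
    ring
  have h4 : 1 ≤ (∏ i, n i).factorization p :=
    (hpp.dvd_iff_one_le_factorization (Finset.prod_ne_zero_iff.2 fun i _ => h0 i)).1
      (Nat.dvd_of_mem_primeFactors hp1)
  omega

theorem sq_part_le {n : ι → ℕ} (hn : ∀ i, Squarefree (n i)) (hsq : IsSquare (∏ i, n i)) :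
    (∏ T : Finset ι, part n T) ^ 2 ≤ ∏ i, n i := by
  rw [prod_eq_part hn, ← Finset.prod_pow]
  refine Finset.prod_le_prod' fun T _ => ?_
  by_cases hT : T.card ≤ 1
  · rw [part_small hn hsq hT, one_pow, one_pow]
  · exact Nat.pow_le_pow_right (part_pos n T) (by omega)

/-- the tuples of positive squarefree integers up to `X` whose product is a square -/
def sqt (ι : Type) [Fintype ι] [DecidableEq ι] (X : ℕ) : Finset (ι → ℕ) :=
  (Fintype.piFinset fun _ : ι => Icc 1 X).filter
    (fun n => (∀ i, Squarefree (n i)) ∧ IsSquare (∏ i, n i))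

theorem mem_sqt {X : ℕ} {n : ι → ℕ} : n ∈ sqt ι X ↔
    (∀ i, 1 ≤ n i ∧ n i ≤ X) ∧ (∀ i, Squarefree (n i)) ∧ IsSquare (∏ i, n i) := by
  simp [sqt, Fintype.mem_piFinset]

theorem sqt_card_le {m X : ℕ} (hι : Fintype.card ι = 2 * m) (hX : 1 ≤ X) :
    ((sqt ι X).card : ℝ) ≤ (X : ℝ) ^ m * (1 + Real.log X) ^ (2 ^ (2 * m)) := by
  have hX0 : (0 : ℝ) < X := by exact_mod_cast hX
  have hone : ∀ n ∈ sqt ι X, (1 : ℝ) ≤ (X : ℝ) ^ m * ∏ T : Finset ι, ((part n T : ℝ))⁻¹ := by
    intro n hn
    obtain ⟨h1, h2, h3⟩ := mem_sqt.1 hn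
    have h4 := sq_part_le h2 h3
    have h5 : ∏ i, n i ≤ (X ^ m) ^ 2 := by
      calc ∏ i, n i ≤ ∏ _i : ι, X := Finset.prod_le_prod' fun i _ => (h1 i).2
        _ = (X ^ m) ^ 2 := by
          rw [Finset.prod_const, Finset.card_univ, hι, ← pow_mul]
          ring_nf
    have h6 : ∏ T : Finset ι, part n T ≤ X ^ m := by
      have := h4.trans h5
      exact (Nat.pow_le_pow_iff_left (by norm_num)).1 this
    have h7 : (0 : ℝ) < ∏ T : Finset ι, (part n T : ℝ) :=
      Finset.prod_pos fun T _ => by exact_mod_cast part_pos n T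
    rw [Finset.prod_inv_distrib, ← div_eq_mul_inv, le_div_iff₀ h7, one_mul]
    exact_mod_cast h6
  have hmaps : ∀ n ∈ sqt ι X, part n ∈ Fintype.piFinset (fun _ : Finset ι => Icc 1 X) := by
    intro n hn
    obtain ⟨h1, h2, h3⟩ := mem_sqt.1 hn
    rw [Fintype.mem_piFinset]
    intro T
    rw [Finset.mem_Icc]
    refine ⟨part_pos n T, ?_⟩
    rcases T.eq_empty_or_nonempty with rfl | ⟨i, hi⟩
    · rw [part_small h2 h3 (by simp)]
      exact hX
    · have h4 : part n T ∣ n i := by
        rw [← part_prod h2 i]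
        exact Finset.dvd_prod_of_mem _ (Finset.mem_filter.2 ⟨Finset.mem_univ _, hi⟩)
      exact (Nat.le_of_dvd (h1 i).1 h4).trans (h1 i).2
  have hinj : Set.InjOn (part : (ι → ℕ) → Finset ι → ℕ) (sqt ι X : Set (ι → ℕ)) := by
    intro n hn n' hn' h
    funext i
    rw [← part_prod (mem_sqt.1 hn).2.1 i, ← part_prod (mem_sqt.1 hn').2.1 i, h]
  calc ((sqt ι X).card : ℝ) = ∑ n ∈ sqt ι X, (1 : ℝ) := by simp
    _ ≤ ∑ n ∈ sqt ι X, (X : ℝ) ^ m * ∏ T : Finset ι, ((part n T : ℝ))⁻¹ :=
        Finset.sum_le_sum hone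
    _ = (X : ℝ) ^ m * ∑ n ∈ sqt ι X, ∏ T : Finset ι, ((part n T : ℝ))⁻¹ := by
        rw [Finset.mul_sum]
    _ = (X : ℝ) ^ m * ∑ f ∈ (sqt ι X).image part, ∏ T : Finset ι, ((f T : ℝ))⁻¹ := by
        rw [Finset.sum_image hinj]
    _ ≤ (X : ℝ) ^ m * ∑ f ∈ Fintype.piFinset (fun _ : Finset ι => Icc 1 X),
          ∏ T : Finset ι, ((f T : ℝ))⁻¹ := by
        refine mul_le_mul_of_nonneg_left ?_ (by positivity)
        refine Finset.sum_le_sum_of_subset_of_nonneg ?_ fun f _ _ =>
          Finset.prod_nonneg fun T _ => by positivity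
        intro f hf
        obtain ⟨n, hn, rfl⟩ := Finset.mem_image.1 hf
        exact hmaps n hn
    _ = (X : ℝ) ^ m * ∏ _T : Finset ι, ∑ j ∈ Icc 1 X, ((j : ℝ))⁻¹ := by
        rw [Finset.prod_univ_sum]
    _ ≤ (X : ℝ) ^ m * (1 + Real.log X) ^ (2 ^ (2 * m)) := by
        refine mul_le_mul_of_nonneg_left ?_ (by positivity)
        rw [Finset.prod_const, Finset.card_univ, Fintype.card_finset, hι]
        refine pow_le_pow_left₀ (Finset.sum_nonneg fun j _ => by positivity) ?_ _
        have h := harmonic_le_one_add_log X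
        rw [harmonic_eq_sum_Icc] at h
        push_cast at h
        exact h

end

end Pool.Agent.Helper92.MQ
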