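import Pool.Agent.W164.RC.Split

/-!
# Multiquadratic fields: the law of decomposition (helper92)
-/

set_option autoImplicit false

open NumberField IsDedekindDomain

namespace Pool.Agent.Helper92.MQ

/-- `K = ℚ(√d₁, …, √d_k)` is of degree `2^k` -/
structure IsMQ {k : ℕ} (d : Fin k → ℤ) (K : Type) [Field K] [NumberField K] (x : Fin k → K) :
    Prop where
  sq : ∀ i, x i ^ 2 = (d i : K)
  gen : Algebra.adjoin ℚ (Set.range x) = ⊤
  deg : Module.finrank ℚ K = 2 ^ k

section
variable {k : ℕ} {d : Fin k → ℤ} {K : Type} [Field K] [NumberField K] {x : Fin k → K}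

open Polynomial in
theorem IsMQ.galois (h : IsMQ d K x) : IsGalois ℚ K := by
  classical
  obtain ⟨p, hp⟩ : ∃ p : ℚ[X], p = ∏ i, (X ^ 2 - C (d i : ℚ)) := ⟨_, rfl⟩
  have hmap : p.map (algebraMap ℚ K) = ∏ i, ((X - C (x i)) * (X + C (x i))) := by
    rw [hp, Polynomial.map_prod]
    refine Finset.prod_congr rfl fun i _ => ?_
    rw [Polynomial.map_sub, Polynomial.map_pow, Polynomial.map_X, Polynomial.map_C]
    have : algebraMap ℚ K (d i : ℚ) = x i ^ 2 := by rw [h.sq i, map_intCast]
    rw [this, C_pow]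
    ring
  have hp0 : p ≠ 0 := by
    rw [hp, Finset.prod_ne_zero_iff]
    intro i _
    exact (monic_X_pow_sub_C _ (by norm_num)).ne_zero
  have hs : IsSplittingField ℚ K p := by
    constructor
    · rw [hmap]
      apply Splits.prod
      intro i _
      exact (Splits.X_sub_C _).mul (Splits.X_add_C _)
    · rw [eq_top_iff, ← h.gen]
      apply Algebra.adjoin_mono
      rintro _ ⟨i, rfl⟩
      rw [mem_rootSet]
      refine ⟨hp0, ?_⟩
      rw [aeval_def, ← eval_map, hmap, eval_prod]
      apply Finset.prod_eq_zero (Finset.mem_univ i)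
      simp
  have hn : Normal ℚ K := Normal.of_isSplittingField p
  exact ⟨⟩

/-- the square roots are integers -/
theorem IsMQ.int (h : IsMQ d K x) (i : Fin k) : ∃ y : 𝓞 K, (y : K) = x i := by
  have h1 : IsIntegral ℤ (x i) := by
    refine ⟨Polynomial.X ^ 2 - Polynomial.C (d i), Polynomial.monic_X_pow_sub_C _ (by norm_num), ?_⟩
    rw [Polynomial.eval₂_sub, Polynomial.eval₂_pow, Polynomial.eval₂_X, Polynomial.eval₂_C, h.sq i]
    simp
  exact ⟨⟨x i, h1⟩, rfl⟩

theorem IsMQ.aut_eq_one (h : IsMQ d K x) {g : K ≃ₐ[ℚ] K} (hg : ∀ i, g (x i) = x i) : g = 1 := by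
  have h1 : (g : K →ₐ[ℚ] K) = AlgHom.id ℚ K := by
    apply AlgHom.ext_of_adjoin_eq_top h.gen
    rintro _ ⟨i, rfl⟩
    exact hg i
  ext z
  exact DFunLike.congr_fun h1 z

theorem IsMQ.aut_sign (h : IsMQ d K x) (g : K ≃ₐ[ℚ] K) (i : Fin k) :
    g (x i) = x i ∨ g (x i) = -x i := by
  have h1 : g (x i) ^ 2 = x i ^ 2 := by
    rw [← map_pow, h.sq i, map_intCast]
  exact sq_eq_sq_iff_eq_or_eq_neg.1 h1

/-- **the law of decomposition** -/
theorem IsMQ.split (h : IsMQ d K x) {p : ℕ} (hp : p.Prime) (h2 : p ≠ 2)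
    (hd : ∀ i, ¬ (p : ℤ) ∣ d i) :
    ∃ f : ℕ, (f = 1 ∨ f = 2) ∧ (f = 1 ↔ ∀ i, jacobiSym (d i) p = 1) ∧
      (∀ v : HeightOneSpectrum (𝓞 K), (p : 𝓞 K) ∈ v.asIdeal → Ideal.absNorm v.asIdeal = p ^ f) ∧
      Nat.card {v : HeightOneSpectrum (𝓞 K) // (p : 𝓞 K) ∈ v.asIdeal} * f = 2 ^ k := by
  classical
  have := h.galois
  have hfp : Fact p.Prime := ⟨hp⟩
  choose y hy using h.int
  have hG : IsGaloisGroup (K ≃ₐ[ℚ] K) ℤ (𝓞 K) :=
    IsGaloisGroup.of_isFractionRing (K ≃ₐ[ℚ] K) ℤ (𝓞 K) ℚ K
  have hcardG : Nat.card (K ≃ₐ[ℚ] K) = 2 ^ k := by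
    rw [IsGalois.card_aut_eq_finrank, h.deg]
  have hpi : Prime (p : ℤ) := Nat.prime_iff_prime_int.1 hp
  have hmax : (Ideal.span {(p : ℤ)}).IsMaximal :=
    PrincipalIdealRing.isMaximal_of_irreducible hpi.irreducible
  have hp0 : Ideal.span {(p : ℤ)} ≠ ⊥ := by
    rw [Ne, Ideal.span_singleton_eq_bot]
    exact hpi.ne_zero
  have hfz : Finite (ℤ ⧸ Ideal.span {(p : ℤ)}) := Ideal.finiteQuotientOfFreeOfNeBot _ hp0
  have hcardz : Nat.card (ℤ ⧸ Ideal.span {(p : ℤ)}) = p := by
    rw [← Submodule.cardQuot_apply, ← Ideal.absNorm_apply, Ideal.absNorm_span_singleton]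
    simp
  have hcoe : ∀ (g : K ≃ₐ[ℚ] K) (z : 𝓞 K), ((g • z : 𝓞 K) : K) = g (z : K) := fun g z => rfl
  have hysq : ∀ i, y i ^ 2 = (d i : 𝓞 K) := by
    intro i
    apply IsFractionRing.injective (𝓞 K) K
    rw [map_pow, map_intCast]
    exact (congrArg (· ^ 2) (hy i)).trans (h.sq i)
  have hunder : ∀ P : Ideal (𝓞 K), P.IsPrime → (p : 𝓞 K) ∈ P → P.LiesOver (Ideal.span {(p : ℤ)}) := by
    intro P hP hle
    constructor
    refine hmax.eq_of_le ?_ ?_
    · exact (inferInstance : (P.under ℤ).IsPrime).ne_top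
    · rw [Ideal.span_singleton_le_iff_mem, Ideal.mem_comap, map_natCast]
      exact hle
  have hZ : ∀ P : Ideal (𝓞 K), P.IsPrime → (p : 𝓞 K) ∈ P → ∀ m : ℤ, (m : 𝓞 K) ∈ P → (p : ℤ) ∣ m := by
    intro P hP hle m hm
    have h1 := (hunder P hP hle).over
    have h3 : m ∈ P.under ℤ := by
      rw [Ideal.mem_comap, eq_intCast]
      exact hm
    rw [← h1, Ideal.mem_span_singleton] at h3
    exact h3
  -- one place
  obtain ⟨f, hfd⟩ : ∃ f : ℕ, f = if ∀ i, jacobiSym (d i) p = 1 then 1 else 2 := ⟨_, rfl⟩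
  have key : ∀ v : HeightOneSpectrum (𝓞 K), (p : 𝓞 K) ∈ v.asIdeal →
      Ideal.absNorm v.asIdeal = p ^ f ∧
      ((Ideal.span {(p : ℤ)}).primesOver (𝓞 K)).ncard * f = 2 ^ k := by
    intro v hv
    have hvp := v.isPrime
    have hvmax : v.asIdeal.IsMaximal := v.isPrime.isMaximal v.ne_bot
    have hfv : Finite (𝓞 K ⧸ v.asIdeal) := Ideal.finiteQuotientOfFreeOfNeBot v.asIdeal v.ne_bot
    have hover : v.asIdeal.LiesOver (Ideal.span {(p : ℤ)}) := hunder _ v.isPrime hv
    have hyv : ∀ i, y i ∉ v.asIdeal := by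
      intro i hi
      have h3 : (d i : 𝓞 K) ∈ v.asIdeal := by
        rw [← hysq i]
        exact Ideal.pow_mem_of_mem _ hi 2 (by norm_num)
      exact hd i (hZ _ v.isPrime hv _ h3)
    have hp3 : 2 < (p : ℤ) := by
      have := hp.two_le
      have : 2 < p := lt_of_le_of_ne this (Ne.symm h2)
      exact_mod_cast this
    have h2v : (2 : 𝓞 K) ∉ v.asIdeal := by
      intro hi
      have h3 := hZ _ v.isPrime hv 2 (by exact_mod_cast hi)
      have := Int.le_of_dvd (by norm_num) h3
      omega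
    have hsign : ∀ (g : K ≃ₐ[ℚ] K) (i : Fin k), g • y i = y i ∨ g • y i = -y i := by
      intro g i
      rcases h.aut_sign g i with h3 | h3
      · left
        apply IsFractionRing.injective (𝓞 K) K
        exact (hcoe g (y i)).trans (by rw [hy i, h3]; exact (hy i).symm)
      · right
        apply IsFractionRing.injective (𝓞 K) K
        rw [map_neg]
        exact (hcoe g (y i)).trans (by rw [hy i, h3]; exact congrArg _ (hy i).symm)
    have hin : ∀ g : K ≃ₐ[ℚ] K, (∀ z : 𝓞 K, g • z - z ∈ v.asIdeal) → g = 1 := by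
      intro g hg
      apply h.aut_eq_one
      intro i
      rcases hsign g i with h3 | h3
      · have h4 := congrArg (algebraMap (𝓞 K) K) h3
        have h5 := (hcoe g (y i)).symm.trans h4
        rw [hy i] at h5
        exact h5.trans (hy i)
      · exfalso
        have h4 := hg (y i)
        rw [h3] at h4
        have h5 : -y i - y i = -(2 * y i) := by ring
        rw [h5, neg_mem_iff] at h4
        rcases v.isPrime.mem_or_mem h4 with h6 | h6
        · exact h2v h6
        · exact hyv i h6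
    obtain ⟨σ, hσ⟩ := IsArithFrobAt.exists_of_isInvariant ℤ (K ≃ₐ[ℚ] K) v.asIdeal
    have hσ' : ∀ z : 𝓞 K, σ • z - z ^ Nat.card (ℤ ⧸ Ideal.span {(p : ℤ)}) ∈ v.asIdeal := by
      intro z
      have h3 := hσ z
      rw [← hover.over] at h3
      exact h3
    have h5 := Pool.Agent.W164.RC.split_abs (K ≃ₐ[ℚ] K) (Ideal.span {(p : ℤ)}) v.asIdeal hin σ hσ'
    -- the action of the Frobenius
    have hact : ∀ i, σ • y i = ((jacobiSym (d i) p : ℤ) : 𝓞 K) * y i := by
      intro i
      have h6 := hσ' (y i)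
      rw [hcardz] at h6
      obtain ⟨J, hJ⟩ : ∃ J : ℤ, J = jacobiSym (d i) p := ⟨_, rfl⟩
      rw [← hJ]
      have hJl : J = legendreSym p (d i) := by rw [hJ, jacobiSym.legendreSym.to_jacobiSym]
      have hJ1 : J = 1 ∨ J = -1 := by
        rw [hJl]
        apply legendreSym.eq_one_or_neg_one
        rw [Ne, ZMod.intCast_zmod_eq_zero_iff_dvd]
        exact hd i
      have h7 : (p : ℤ) ∣ (J - d i ^ (p / 2)) := by
        rw [← ZMod.intCast_zmod_eq_zero_iff_dvd]
        push_cast
        rw [hJl, legendreSym.eq_pow, sub_self]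
      have hodd : 2 * (p / 2) + 1 = p := by
        have := hp.eq_two_or_odd
        omega
      have h8 : y i ^ p = y i * (d i : 𝓞 K) ^ (p / 2) := by
        conv_lhs => rw [← hodd]
        rw [pow_succ, pow_mul, hysq i]
        ring
      have h9 : ((J : ℤ) : 𝓞 K) * y i - y i ^ p ∈ v.asIdeal := by
        rw [h8]
        have h10 : ((J : ℤ) : 𝓞 K) * y i - y i * (d i : 𝓞 K) ^ (p / 2) =
            (((J - d i ^ (p / 2) : ℤ)) : 𝓞 K) * y i := by
          push_cast
          ring
        rw [h10]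
        apply Ideal.mul_mem_right
        obtain ⟨c, hc⟩ := h7
        rw [hc]
        push_cast
        exact Ideal.mul_mem_right _ _ hv
      have h11 : σ • y i - ((J : ℤ) : 𝓞 K) * y i ∈ v.asIdeal := by
        have := sub_mem h6 h9
        rwa [sub_sub_sub_cancel_right] at this
      rcases hsign σ i with h12 | h12
      · rcases hJ1 with h13 | h13
        · rw [h13, h12]; simp
        · exfalso
          rw [h12, h13] at h11
          have h14 : y i - ((-1 : ℤ) : 𝓞 K) * y i = 2 * y i := by push_cast; ring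
          rw [h14] at h11
          rcases v.isPrime.mem_or_mem h11 with h6 | h6
          · exact h2v h6
          · exact hyv i h6
      · rcases hJ1 with h13 | h13
        · exfalso
          rw [h12, h13] at h11
          have h14 : -y i - ((1 : ℤ) : 𝓞 K) * y i = -(2 * y i) := by push_cast; ring
          rw [h14, neg_mem_iff] at h11
          rcases v.isPrime.mem_or_mem h11 with h6 | h6
          · exact h2v h6
          · exact hyv i h6
        · rw [h13, h12]; simp
    have hact' : ∀ i, σ (x i) = ((jacobiSym (d i) p : ℤ) : K) * x i := by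
      intro i
      have h6 := congrArg (algebraMap (𝓞 K) K) (hact i)
      rw [map_mul, map_intCast] at h6
      have h7 := (hcoe σ (y i)).symm.trans h6
      rw [hy i] at h7
      exact h7.trans (by congr 1; exact hy i)
    have hx0 : ∀ i, x i ≠ 0 := by
      intro i h0
      apply hyv i
      have : y i = 0 := by
        apply IsFractionRing.injective (𝓞 K) K
        rw [map_zero]
        exact (hy i).trans h0
      rw [this]
      exact zero_mem _
    have hord : orderOf σ = f := by
      rw [hfd]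
      split_ifs with hall
      · rw [orderOf_eq_one_iff]
        apply h.aut_eq_one
        intro i
        rw [hact' i, hall i]
        simp
      · push Not at hall
        obtain ⟨j, hj⟩ := hall
        apply orderOf_eq_prime
        · apply h.aut_eq_one
          intro i
          rw [pow_two, AlgEquiv.mul_apply, hact' i, map_mul, map_intCast, hact' i, ← mul_assoc]
          have h6 : ((jacobiSym (d i) p : ℤ) : K) * ((jacobiSym (d i) p : ℤ) : K) = 1 := by
            have h7 : jacobiSym (d i) p * jacobiSym (d i) p = 1 := by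
              have h8 : legendreSym p (d i) = 1 ∨ legendreSym p (d i) = -1 := by
                apply legendreSym.eq_one_or_neg_one
                rw [Ne, ZMod.intCast_zmod_eq_zero_iff_dvd]
                exact hd i
              rw [← jacobiSym.legendreSym.to_jacobiSym]
              rcases h8 with h8 | h8 <;> rw [h8] <;> norm_num
            exact_mod_cast h7
          rw [h6, one_mul]
        · intro h6
          have h7 := hact' j
          rw [h6, AlgEquiv.one_apply] at h7
          apply hj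
          have h8 : ((jacobiSym (d j) p : ℤ) : K) = 1 := by
            have h9 : (((jacobiSym (d j) p : ℤ) : K) - 1) * x j = 0 := by rw [sub_mul, ← h7]; ring
            rcases mul_eq_zero.1 h9 with h10 | h10
            · exact sub_eq_zero.1 h10
            · exact absurd h10 (hx0 j)
          exact_mod_cast h8
    rw [hcardz, hord, hcardG] at h5
    refine ⟨?_, h5.2⟩
    rw [Ideal.absNorm_apply, Submodule.cardQuot_apply]
    exact h5.1
  -- existence of a place
  have hne : ∀ P : Ideal (𝓞 K), P.LiesOver (Ideal.span {(p : ℤ)}) → P ≠ ⊥ := by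
    intro P hP hPb
    apply hp0
    rw [hP.over, hPb, eq_bot_iff]
    intro a ha
    rw [Ideal.mem_comap, Ideal.mem_bot] at ha
    rw [Ideal.mem_bot]
    exact (FaithfulSMul.algebraMap_injective ℤ (𝓞 K)) (by rw [ha, map_zero])
  have hmem : ∀ P : Ideal (𝓞 K), P.LiesOver (Ideal.span {(p : ℤ)}) → (p : 𝓞 K) ∈ P := by
    intro P hP
    have h3 : (p : ℤ) ∈ P.under ℤ := by
      rw [← hP.over]
      exact Ideal.mem_span_singleton_self _
    rw [Ideal.mem_comap, map_natCast] at h3
    exact h3
  have hex : ∃ v : HeightOneSpectrum (𝓞 K), (p : 𝓞 K) ∈ v.asIdeal := by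
    obtain ⟨P, hPm, hPo⟩ :=
      Ideal.exists_maximal_ideal_liesOver_of_isIntegral (S := 𝓞 K) (Ideal.span {(p : ℤ)})
    exact ⟨⟨P, hPm.isPrime, hne P hPo⟩, hmem P hPo⟩
  obtain ⟨v0, hv0⟩ := hex
  refine ⟨f, ?_, ?_, fun v hv => (key v hv).1, ?_⟩
  · rw [hfd]
    split_ifs
    · exact Or.inl rfl
    · exact Or.inr rfl
  · rw [hfd]
    split_ifs with hall
    · exact ⟨fun _ => hall, fun _ => rfl⟩
    · exact ⟨fun h3 => absurd h3 (by norm_num), fun h3 => absurd h3 hall⟩
  have h6 := (key v0 hv0).2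
  have h7 : Nat.card {v : HeightOneSpectrum (𝓞 K) // (p : 𝓞 K) ∈ v.asIdeal} =
      ((Ideal.span {(p : ℤ)}).primesOver (𝓞 K)).ncard := by
    rw [← Nat.card_coe_set_eq]
    refine Nat.card_congr
      { toFun := fun v => ⟨v.1.asIdeal, v.1.isPrime, hunder _ v.1.isPrime v.2⟩
        invFun := fun P => ⟨⟨P.1, P.2.1, hne _ P.2.2⟩, hmem _ P.2.2⟩
        left_inv := fun v => rfl
        right_inv := fun P => rfl }
  rw [h7, h6]

end

end Pool.Agent.Helper92.MQ
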