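import Pool.Agent.Helper92.MQ.Twist

/-!
# The L-function of an elliptic curve over a multiquadratic field (helper92)
-/

set_option autoImplicit false

open NumberField IsDedekindDomain Complex Filter Topology

namespace Pool.Agent.Helper92.MQ

open Pool.Agent.Helper92.CM (trc trc_ext trc_sq_le)
open Pool.Agent.W164.RC (lpoly lpoly_ne lpoly_diff Poss order_mul_ne)
open Pool.Agent.H921R2.TatePole (below two_le_nm)
open Pool.Agent.Y19.QT (IsLFun ap)

theorem order_prod {ι : Type} (T : Finset ι) (f : ι → ℂ → ℂ) (hf : ∀ i ∈ T, Differentiable ℂ (f i))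
    (s : ℂ) : analyticOrderAt (fun z => ∏ i ∈ T, f i z) s = ∑ i ∈ T, analyticOrderAt (f i) s := by
  classical
  induction T using Finset.induction_on with
  | empty =>
    simp only [Finset.prod_empty, Finset.sum_empty]
    rw [AnalyticAt.analyticOrderAt_eq_zero analyticAt_const]
    exact one_ne_zero
  | insert i T hi ih =>
    have h1 : (fun z => ∏ j ∈ insert i T, f j z) = (f i) * (fun z => ∏ j ∈ T, f j z) := by
      funext z
      rw [Finset.prod_insert hi]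
      rfl
    have hd : Differentiable ℂ (fun z => ∏ j ∈ T, f j z) :=
      Differentiable.fun_finsetProd fun j hj => hf j (Finset.mem_insert_of_mem hj)
    rw [h1, analyticOrderAt_mul ((hf i (Finset.mem_insert_self _ _)).analyticAt s)
      (hd.analyticAt s), Finset.sum_insert hi,
      ih fun j hj => hf j (Finset.mem_insert_of_mem hj)]

section
variable {K : Type} [Field K] [NumberField K]

open Classical in
/-- the Euler polynomial at `v` -/
noncomputable def pol (a b : ℤ) (α β : HeightOneSpectrum (𝓞 K) → ℤ) (v : HeightOneSpectrum (𝓞 K))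
    (s : ℂ) : ℂ :=
  if ((2 * (4 * a ^ 3 + 27 * b ^ 2) : ℤ) : 𝓞 K) ∈ v.asIdeal then
    lpoly (α v) (β v) (Ideal.absNorm v.asIdeal) s
  else lpoly (trv a b v) 1 (Ideal.absNorm v.asIdeal) s

theorem pol_diff (a b : ℤ) (α β : HeightOneSpectrum (𝓞 K) → ℤ) (v : HeightOneSpectrum (𝓞 K)) :
    Differentiable ℂ (pol a b α β v) := by
  unfold pol
  by_cases h : ((2 * (4 * a ^ 3 + 27 * b ^ 2) : ℤ) : 𝓞 K) ∈ v.asIdeal
  · simp only [if_pos h]
    exact lpoly_diff _ _ (two_le_nm v)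
  · simp only [if_neg h]
    exact lpoly_diff _ _ (two_le_nm v)

theorem pol_ne {a b : ℤ} {α β : HeightOneSpectrum (𝓞 K) → ℤ}
    (hpos : ∀ v : HeightOneSpectrum (𝓞 K), ((2 * (4 * a ^ 3 + 27 * b ^ 2) : ℤ) : 𝓞 K) ∈ v.asIdeal →
      Poss (Ideal.absNorm v.asIdeal) (α v) (β v)) (v : HeightOneSpectrum (𝓞 K))
    {s : ℂ} (hs : 1 / 2 < s.re) : pol a b α β v s ≠ 0 := by
  unfold pol
  by_cases h : ((2 * (4 * a ^ 3 + 27 * b ^ 2) : ℤ) : 𝓞 K) ∈ v.asIdeal
  · simp only [if_pos h]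
    exact lpoly_ne (two_le_nm v) (hpos v h) hs
  · simp only [if_neg h]
    refine lpoly_ne (two_le_nm v) (Or.inl ⟨rfl, trv_poss v ?_⟩) hs
    intro h2
    apply h
    rw [intCast_mem_iff, h2]
    exact dvd_mul_right _ _

/-- the order does not depend on the choice of the L-function -/
theorem order_unique {L L' : ℂ → ℂ} {f : ℂ → HeightOneSpectrum (𝓞 K) → ℂ}
    (h1 : AnalyticOnNhd ℂ L {s : ℂ | 1 / 2 < s.re})
    (h2 : AnalyticOnNhd ℂ L' {s : ℂ | 1 / 2 < s.re})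
    (h3 : ∀ s : ℂ, 3 / 2 < s.re → HasProd (f s) (L s))
    (h4 : ∀ s : ℂ, 3 / 2 < s.re → HasProd (f s) (L' s)) {s : ℂ} (hs : 1 / 2 < s.re) :
    analyticOrderAt L s = analyticOrderAt L' s := by
  have hopen : IsOpen {s : ℂ | 1 / 2 < s.re} := isOpen_lt continuous_const Complex.continuous_re
  have hpre : IsPreconnected {s : ℂ | 1 / 2 < s.re} :=
    (convex_halfSpace_re_gt (1 / 2)).isPreconnected
  have h2mem : (2 : ℂ) ∈ {s : ℂ | 1 / 2 < s.re} := by
    show 1 / 2 < (2 : ℂ).re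
    norm_num
  have hev : L =ᶠ[𝓝 (2 : ℂ)] L' := by
    have hmem : {s : ℂ | (3 : ℝ) / 2 < s.re} ∈ 𝓝 (2 : ℂ) :=
      (isOpen_lt continuous_const Complex.continuous_re).mem_nhds (by
        show (3 : ℝ) / 2 < (2 : ℂ).re
        norm_num)
    filter_upwards [hmem] with z hz
    exact (h3 z hz).unique (h4 z hz)
  have heq := h1.eqOn_of_preconnected_of_eventuallyEq h2 hpre h2mem hev
  apply analyticOrderAt_congr
  filter_upwards [hopen.mem_nhds hs] with z hz
  exact heq hz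

end

section
variable {k : ℕ} {d : Fin k → ℤ} {K : Type} [Field K] [NumberField K] {x : Fin k → K}

theorem exists_L (h : IsMQ d K x) (hd : ∀ i, d i ≠ 0) {a b : ℤ} (hab : 4 * a ^ 3 + 27 * b ^ 2 ≠ 0)
    (F : ℤ → ℂ → ℂ) (hF : ∀ D : ℤ, Squarefree D → IsLFun (a * D ^ 2) (b * D ^ 3) (F D))
    {α β : HeightOneSpectrum (𝓞 K) → ℤ}
    (hpos : ∀ v : HeightOneSpectrum (𝓞 K), ((2 * (4 * a ^ 3 + 27 * b ^ 2) : ℤ) : 𝓞 K) ∈ v.asIdeal →
      Poss (Ideal.absNorm v.asIdeal) (α v) (β v)) :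
    ∃ L G : ℂ → ℂ, AnalyticOnNhd ℂ L {s : ℂ | 1 / 2 < s.re} ∧
      (∀ s : ℂ, 3 / 2 < s.re →
        HasProd (fun v : HeightOneSpectrum (𝓞 K) => (pol a b α β v s)⁻¹) (L s)) ∧
      Differentiable ℂ G ∧ (∀ s : ℂ, 1 / 2 < s.re → G s = L s * ∏ᶠ v ∈
        {v : HeightOneSpectrum (𝓞 K) | ((2 * (4 * a ^ 3 + 27 * b ^ 2) * ∏ i, d i : ℤ) : 𝓞 K) ∈
          v.asIdeal}, pol a b α β v s) ∧
      ∀ s : ℂ, 1 / 2 < s.re → analyticOrderAt L s =
        ∑ S : Finset (Fin k), analyticOrderAt (F (sf (∏ i ∈ S, d i))) s := by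
  classical
  obtain ⟨n, hn⟩ : ∃ n : ℤ, n = 2 * (4 * a ^ 3 + 27 * b ^ 2) * ∏ i, d i := ⟨_, rfl⟩
  have hn0 : n ≠ 0 := by
    rw [hn]
    exact mul_ne_zero (mul_ne_zero two_ne_zero hab) (Finset.prod_ne_zero_iff.2 fun i _ => hd i)
  rw [← hn]
  have hst := fun S : Finset (Fin k) => strip (hF _ (sf_squarefree (∏ i ∈ S, d i))) hn0
  choose GS g1 g2 g3 using hst
  obtain ⟨G, hG⟩ : ∃ G : ℂ → ℂ, G = fun s => ∏ S, GS S s := ⟨_, rfl⟩
  have hGd : Differentiable ℂ G := by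
    rw [hG]
    exact Differentiable.fun_finsetProd fun S _ => g1 S
  have hfin := finite_bad K n hn0
  obtain ⟨V, hV⟩ : ∃ V : Finset (HeightOneSpectrum (𝓞 K)), V = hfin.toFinset := ⟨_, rfl⟩
  have hVm : ∀ v, v ∈ V ↔ ((n : ℤ) : 𝓞 K) ∈ v.asIdeal := fun v => by
    rw [hV, Set.Finite.mem_toFinset]
    exact Iff.rfl
  obtain ⟨R, hR⟩ : ∃ R : ℂ → ℂ, R = fun s => ∏ v ∈ V, (pol a b α β v s)⁻¹ := ⟨_, rfl⟩
  have hRan : ∀ s : ℂ, 1 / 2 < s.re → AnalyticAt ℂ R s := by
    intro s hs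
    rw [hR]
    apply Finset.analyticAt_fun_prod
    intro v hv
    exact ((pol_diff a b α β v).analyticAt s).inv (pol_ne hpos v hs)
  have hRne : ∀ s : ℂ, 1 / 2 < s.re → R s ≠ 0 := by
    intro s hs
    rw [hR]
    simp only
    rw [Finset.prod_ne_zero_iff]
    intro v hv
    exact inv_ne_zero (pol_ne hpos v hs)
  refine ⟨fun s => G s * R s, G, fun s hs => (hGd.analyticAt s).mul (hRan s hs),
    fun s hs => ?_, hGd, fun s hs => ?_, fun s hs => ?_⟩
  · have h1 := hasProd_mq h hn s hs (fun S => GS S s) (fun S => by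
      refine (g2 S s hs).congr_fun fun p => ?_
      by_cases hp : ((p : ℕ) : ℤ) ∣ n
      · rw [if_pos hp, if_pos hp]
      · have hfp : NeZero (p : ℕ) := ⟨p.2.ne_zero⟩
        rw [if_neg hp, if_neg hp, eD_eq hd hn S p.2 hp s, trc_ap])
    have h2 : HasProd (fun v : HeightOneSpectrum (𝓞 K) =>
        if v ∈ V then (pol a b α β v s)⁻¹ else 1) (R s) := by
      have h3 : R s = ∏ v ∈ V, (if v ∈ V then (pol a b α β v s)⁻¹ else 1) := by
        rw [hR]
        exact Finset.prod_congr rfl fun v hv => by rw [if_pos hv]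
      rw [h3]
      apply hasProd_prod_of_ne_finset_one
      intro v hv
      rw [if_neg hv]
    have h4 : G s = ∏ S, GS S s := by rw [hG]
    rw [← h4] at h1
    refine (h1.mul h2).congr_fun fun v => ?_
    by_cases hv : ((n : ℤ) : 𝓞 K) ∈ v.asIdeal
    · rw [if_pos hv, if_pos ((hVm v).2 hv), one_mul]
    · rw [if_neg hv, if_neg (fun h3 => hv ((hVm v).1 h3)), mul_one]
      unfold pol
      rw [if_neg]
      intro h3
      apply hv
      rw [intCast_mem_iff] at h3 ⊢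
      rw [hn]
      exact h3.mul_right _
  · have h3 : ∏ᶠ v ∈ {v : HeightOneSpectrum (𝓞 K) | ((n : ℤ) : 𝓞 K) ∈ v.asIdeal},
        pol a b α β v s = ∏ v ∈ V, pol a b α β v s := by
      rw [← finprod_mem_coe_finset]
      have : (V : Set (HeightOneSpectrum (𝓞 K))) = {v | ((n : ℤ) : 𝓞 K) ∈ v.asIdeal} := by
        ext v
        exact hVm v
      rw [this]
    rw [h3, hR]
    simp only
    rw [mul_assoc, ← Finset.prod_mul_distrib]
    have h4 : ∏ v ∈ V, ((pol a b α β v s)⁻¹ * pol a b α β v s) = 1 :=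
      Finset.prod_eq_one fun v _ => inv_mul_cancel₀ (pol_ne hpos v hs)
    rw [h4, mul_one]
  · rw [order_mul_ne (hGd.analyticAt s) (hRan s hs) (hRne s hs), hG,
      order_prod _ _ (fun S _ => g1 S)]
    exact Finset.sum_congr rfl fun S _ => g3 S s hs

end

end Pool.Agent.Helper92.MQ
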