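import Pool.Agent.Helper92.CM.Pts
import Pool.Agent.Helper92.MQ.Gal
import Pool.Agent.W164.RC.Bad

/-!
# The Euler factors of an elliptic curve over a multiquadratic field (helper92)
-/

set_option autoImplicit false

open NumberField IsDedekindDomain Complex Filter

namespace Pool.Agent.Helper92.MQ

open Pool.Agent.Helper92.CM (trc trc_ext trc_sq_le)
open Pool.Agent.W164.RC (lpoly lpoly_ne lpoly_diff Poss places_finite order_mul_ne)
open Pool.Agent.H921R2.TatePole (below deg nm nm_eq nm_summable two_le_nm fiber_finite)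
open Pool.Agent.H82R3.EK (luc luc_eq natCast_mem_iff below_eq_of_mem)

/-- the distance to one -/
theorem lpoly_sub_bound {t : ℤ} {Q : ℕ} (hQ : 2 ≤ Q) (ht : t ^ 2 ≤ 4 * (Q : ℤ)) (s : ℂ)
    (hs : 3 / 2 < s.re) (hsmall : (Q : ℝ) ^ (-(s.re - 1 / 2)) ≤ 1 / 6) :
    ‖(lpoly t 1 Q s)⁻¹ - 1‖ ≤ 6 * (Q : ℝ) ^ (-(s.re - 1 / 2)) := by
  have hn0 : (0 : ℝ) < Q := by exact_mod_cast (by omega : 0 < Q)
  have hn1 : (1 : ℝ) ≤ Q := by exact_mod_cast (by omega : 1 ≤ Q)
  obtain ⟨w, hw⟩ : ∃ w : ℝ, w = (Q : ℝ) ^ (-(s.re - 1 / 2)) := ⟨_, rfl⟩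
  rw [← hw] at hsmall ⊢
  have hw0 : 0 < w := by rw [hw]; positivity
  have e1 : ‖(Q : ℂ) ^ (-s)‖ = (Q : ℝ) ^ (-s.re) := by
    have := Complex.norm_natCast_cpow_of_pos (n := Q) (by omega) (-s)
    rw [Complex.neg_re] at this
    exact this
  have e2 : ‖(Q : ℂ) ^ (1 - 2 * s)‖ = (Q : ℝ) ^ (1 - 2 * s.re) := by
    have := Complex.norm_natCast_cpow_of_pos (n := Q) (by omega) (1 - 2 * s)
    have h2 : (1 - 2 * s).re = 1 - 2 * s.re := by simp
    rw [h2] at this
    exact this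
  have hb : |(t : ℝ)| ≤ 2 * Real.sqrt Q := by
    apply abs_le_of_sq_le_sq _ (by positivity)
    rw [mul_pow, Real.sq_sqrt hn0.le]
    have : ((t ^ 2 : ℤ) : ℝ) ≤ ((4 * (Q : ℤ) : ℤ) : ℝ) := by exact_mod_cast ht
    push_cast at this
    linarith
  set u : ℂ := -((t : ℂ) * (Q : ℂ) ^ (-s)) + (Q : ℂ) ^ (1 - 2 * s) with hu
  have hu1 : ‖u‖ ≤ 3 * w := by
    have h1 : ‖(t : ℂ) * (Q : ℂ) ^ (-s)‖ ≤ 2 * w := by
      rw [norm_mul, e1, Complex.norm_intCast]
      calc |(t : ℝ)| * (Q : ℝ) ^ (-s.re) ≤ (2 * Real.sqrt Q) * (Q : ℝ) ^ (-s.re) :=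
            mul_le_mul_of_nonneg_right hb (by positivity)
        _ = 2 * w := by
            rw [hw, Real.sqrt_eq_rpow, mul_assoc, ← Real.rpow_add hn0]
            congr 2
            ring
    have h2 : ‖(Q : ℂ) ^ (1 - 2 * s)‖ ≤ w := by
      rw [e2, hw]
      apply Real.rpow_le_rpow_of_exponent_le hn1
      linarith
    calc ‖u‖ ≤ ‖-((t : ℂ) * (Q : ℂ) ^ (-s))‖ + _ := norm_add_le _ _
      _ ≤ 2 * w + w := add_le_add (by rwa [norm_neg]) h2
      _ = 3 * w := by ring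
  have e3 : lpoly t 1 Q s = 1 + u := by
    rw [hu]
    unfold lpoly
    push_cast
    ring
  rw [e3]
  have hu2 : ‖u‖ ≤ 1 / 2 := by linarith
  have h3 : 1 / 2 ≤ ‖1 + u‖ := by
    have := norm_sub_norm_le (1 : ℂ) (-u)
    rw [sub_neg_eq_add, norm_neg, norm_one] at this
    linarith
  have hne : 1 + u ≠ 0 := by
    intro h
    rw [h, norm_zero] at h3
    linarith
  have e4 : (1 + u)⁻¹ - 1 = -u / (1 + u) := by field_simp; ring
  rw [e4, norm_div, norm_neg, div_le_iff₀ (by linarith)]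
  nlinarith [norm_nonneg u]


/-- the two local factors over the quadratic extension -/
theorem lpoly_two {p : ℕ} (hp : p ≠ 0) (t : ℤ) (s : ℂ) :
    lpoly (luc t p 2) 1 (p ^ 2) s = lpoly t 1 p s * lpoly (-t) 1 p s := by
  unfold lpoly
  have e1 : ((p ^ 2 : ℕ) : ℂ) ^ (-s) = ((p : ℂ) ^ (-s)) ^ 2 := by
    rw [Nat.cast_pow]
    exact Pool.Agent.H82R3.EK.pow_cpow p 2 (-s)
  have e2 : (p : ℂ) ^ (1 - 2 * s) = p * ((p : ℂ) ^ (-s)) ^ 2 :=
    Pool.Agent.H82R3.EK.prime_cpow p hp s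
  have e3 : ((p ^ 2 : ℕ) : ℂ) ^ (1 - 2 * s) = ((p ^ 2 : ℕ) : ℂ) * (((p ^ 2 : ℕ) : ℂ) ^ (-s)) ^ 2 :=
    Pool.Agent.H82R3.EK.prime_cpow (p ^ 2) (pow_ne_zero 2 hp) s
  rw [e3, e1, e2]
  have e4 : luc t p 2 = t * t - p * 2 := by
    simp [luc]
  rw [e4]
  push_cast
  ring

section
variable {K : Type} [Field K] [NumberField K]

/-- `Nv` minus the number of the affine points -/
noncomputable def trv (a b : ℤ) (v : HeightOneSpectrum (𝓞 K)) : ℤ := trc (𝓞 K ⧸ v.asIdeal) a b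

theorem intCast_mem_iff (v : HeightOneSpectrum (𝓞 K)) (n : ℤ) :
    ((n : ℤ) : 𝓞 K) ∈ v.asIdeal ↔ ((below v : ℕ) : ℤ) ∣ n := by
  rw [Int.natCast_dvd, ← natCast_mem_iff]
  rcases Int.natAbs_eq n with h | h
  · conv_lhs => rw [h]
    rw [Int.cast_natCast]
  · conv_lhs => rw [h]
    rw [Int.cast_neg, Int.cast_natCast, neg_mem_iff]

/-- good places -/
theorem trv_good {a b : ℤ} (v : HeightOneSpectrum (𝓞 K))
    (hv : ¬ ((below v : ℕ) : ℤ) ∣ 2 * (4 * a ^ 3 + 27 * b ^ 2)) :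
    trv a b v = luc (trc (ZMod (below v : ℕ)) a b) (below v : ℕ) (deg v) := by
  have hmax : v.asIdeal.IsMaximal := v.isPrime.isMaximal v.ne_bot
  let : Field (𝓞 K ⧸ v.asIdeal) := Ideal.Quotient.field v.asIdeal
  have : Finite (𝓞 K ⧸ v.asIdeal) := Ideal.finiteQuotientOfFreeOfNeBot v.asIdeal v.ne_bot
  obtain ⟨h1, h2, h3⟩ := nm_eq v
  have hfp : Fact (below v : ℕ).Prime := ⟨(below v).2⟩
  have : CharP (𝓞 K ⧸ v.asIdeal) (below v : ℕ) := by
    have : ringChar (𝓞 K ⧸ v.asIdeal) = (below v : ℕ) := by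
      apply CharP.ringChar_of_prime_eq_zero (below v).2
      have := Ideal.Quotient.eq_zero_iff_mem.2 h3
      simpa using this
    rw [← this]; infer_instance
  let : Algebra (ZMod (below v : ℕ)) (𝓞 K ⧸ v.asIdeal) := ZMod.algebra _ _
  have hcard : Ideal.absNorm v.asIdeal = Nat.card (𝓞 K ⧸ v.asIdeal) := by
    rw [Ideal.absNorm_apply, Submodule.cardQuot_apply]
  have hfin : Module.finrank (ZMod (below v : ℕ)) (𝓞 K ⧸ v.asIdeal) = deg v := by
    have h4 := Module.natCard_eq_pow_finrank (K := ZMod (below v : ℕ)) (V := 𝓞 K ⧸ v.asIdeal)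
    rw [Nat.card_zmod, ← hcard] at h4
    have h5 : (below v : ℕ) ^ (Module.finrank (ZMod (below v : ℕ)) (𝓞 K ⧸ v.asIdeal)) =
        (below v : ℕ) ^ deg v := by
      rw [← h4, ← h1]; rfl
    exact Nat.pow_right_injective (below v).2.two_le h5
  have h2' : (2 : ZMod (below v : ℕ)) ≠ 0 := by
    intro h
    apply hv
    have h4 : ((2 : ℤ) : ZMod (below v : ℕ)) = 0 := by exact_mod_cast h
    rw [ZMod.intCast_zmod_eq_zero_iff_dvd] at h4
    exact h4.mul_right _
  have hD : 4 * ((a : ZMod (below v : ℕ))) ^ 3 + 27 * (b : ZMod (below v : ℕ)) ^ 2 ≠ 0 := by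
    intro h
    apply hv
    have h4 : ((4 * a ^ 3 + 27 * b ^ 2 : ℤ) : ZMod (below v : ℕ)) = 0 := by
      push_cast
      exact h
    rw [ZMod.intCast_zmod_eq_zero_iff_dvd] at h4
    exact h4.mul_left _
  have h6 := trc_ext (F := ZMod (below v : ℕ)) (E := 𝓞 K ⧸ v.asIdeal) h2' a b hD
  rw [hfin, Nat.card_zmod] at h6
  exact h6

theorem trv_poss {a b : ℤ} (v : HeightOneSpectrum (𝓞 K)) (hv : (below v : ℕ) ≠ 2) :
    (trv a b v) ^ 2 ≤ 4 * ((Ideal.absNorm v.asIdeal : ℕ) : ℤ) := by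
  have hvmax : v.asIdeal.IsMaximal := v.isPrime.isMaximal v.ne_bot
  let : Field (𝓞 K ⧸ v.asIdeal) := Ideal.Quotient.field v.asIdeal
  have hfv : Finite (𝓞 K ⧸ v.asIdeal) := Ideal.finiteQuotientOfFreeOfNeBot v.asIdeal v.ne_bot
  have hcardv : Nat.card (𝓞 K ⧸ v.asIdeal) = Ideal.absNorm v.asIdeal := by
    rw [Ideal.absNorm_apply, Submodule.cardQuot_apply]
  have h3 : (2 : 𝓞 K ⧸ v.asIdeal) ≠ 0 := by
    intro h
    have h2 : ((2 : ℤ) : 𝓞 K) ∈ v.asIdeal := by
      rw [← Ideal.Quotient.eq_zero_iff_mem, ← h]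
      push_cast
      simp only [map_ofNat]
    rw [intCast_mem_iff] at h2
    apply hv
    exact (Nat.prime_dvd_prime_iff_eq (below v).2 Nat.prime_two).1 (by exact_mod_cast h2)
  have h4 := trc_sq_le h3 a b
  rw [hcardv] at h4
  exact h4

/-- only finitely many places divide a nonzero integer -/
theorem finite_bad (K : Type) [Field K] [NumberField K] (n : ℤ) (hn : n ≠ 0) :
    {v : HeightOneSpectrum (𝓞 K) | ((n : ℤ) : 𝓞 K) ∈ v.asIdeal}.Finite :=
  places_finite (by exact_mod_cast hn)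

open Classical in
/-- the Euler product over the places not dividing `n` is multipliable -/
theorem multipliable_good {a b n : ℤ} (h2 : 2 ∣ n) (s : ℂ) (hs : 3 / 2 < s.re) :
    Multipliable (fun v : HeightOneSpectrum (𝓞 K) => if ((n : ℤ) : 𝓞 K) ∈ v.asIdeal then (1 : ℂ)
      else (lpoly (trv a b v) 1 (Ideal.absNorm v.asIdeal) s)⁻¹) := by
  have hsum := nm_summable (K := K) (x := s.re - 1 / 2) (by linarith)
  have h1 : Summable (fun v : HeightOneSpectrum (𝓞 K) =>
      ‖(if ((n : ℤ) : 𝓞 K) ∈ v.asIdeal then (1 : ℂ)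
      else (lpoly (trv a b v) 1 (Ideal.absNorm v.asIdeal) s)⁻¹) - 1‖) := by
    refine Summable.of_norm_bounded_eventually (hsum.mul_left 6) ?_
    have h2' := hsum.tendsto_cofinite_zero.eventually (Iio_mem_nhds (by norm_num : (0 : ℝ) < 1 / 6))
    filter_upwards [h2'] with v hv
    rw [norm_norm]
    split_ifs with h
    · rw [sub_self, norm_zero]
      positivity
    · have hb : (below v : ℕ) ≠ 2 := by
        intro h3
        apply h
        rw [intCast_mem_iff, h3]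
        exact h2
      exact lpoly_sub_bound (two_le_nm v) (trv_poss v hb) s hs (le_of_lt hv)
  have h3 := multipliable_one_add_of_summable h1
  refine h3.congr (fun v => ?_)
  ring

end

/-- the products over the subsets -/
theorem prod_subsets {k : ℕ} (J : Fin k → ℤ) (hJ : ∀ i, J i = 1 ∨ J i = -1) (g : ℤ → ℂ)
    (f c : ℕ) (hf : f = 1 ∨ f = 2) (hf1 : f = 1 ↔ ∀ i, J i = 1) (hc : c * f = 2 ^ k) :
    ∏ S : Finset (Fin k), g (∏ i ∈ S, J i) = (if f = 1 then g 1 else g 1 * g (-1)) ^ c := by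
  classical
  rcases hf with hf | hf
  · have hall := hf1.1 hf
    rw [if_pos hf]
    have h1 : ∀ S : Finset (Fin k), g (∏ i ∈ S, J i) = g 1 := by
      intro S
      rw [Finset.prod_eq_one fun i _ => hall i]
    rw [Finset.prod_congr rfl fun S _ => h1 S, Finset.prod_const, Finset.card_univ,
      Fintype.card_finset, Fintype.card_fin]
    congr 1
    rw [← hc, hf, mul_one]
  · have hne : ¬ f = 1 := by omega
    rw [if_neg hne]
    have hex : ∃ j, J j = -1 := by
      by_contra h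
      push Not at h
      exact hne (hf1.2 fun i => (hJ i).resolve_right (h i))
    obtain ⟨j, hj⟩ := hex
    have hu : (Finset.univ : Finset (Finset (Fin k))) =
        (insert j ((Finset.univ : Finset (Fin k)).erase j)).powerset := by
      rw [Finset.insert_erase (Finset.mem_univ j), Finset.powerset_univ]
    have hP : ∀ S : Finset (Fin k), (∏ i ∈ S, J i) = 1 ∨ (∏ i ∈ S, J i) = -1 := by
      intro S
      induction S using Finset.induction_on with
      | empty => left; simp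
      | insert i S hi ih =>
        rw [Finset.prod_insert hi]
        rcases hJ i with h | h <;> rcases ih with h' | h' <;> rw [h, h'] <;> norm_num
    rw [hu, Finset.prod_powerset_insert (Finset.notMem_erase _ _), ← Finset.prod_mul_distrib]
    have h1 : ∀ S ∈ ((Finset.univ : Finset (Fin k)).erase j).powerset,
        g (∏ i ∈ S, J i) * g (∏ i ∈ insert j S, J i) = g 1 * g (-1) := by
      intro S hS
      rw [Finset.mem_powerset] at hS
      have hjS : j ∉ S := fun h => (Finset.notMem_erase j _) (hS h)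
      rw [Finset.prod_insert hjS, hj]
      rcases hP S with h | h <;> rw [h]
      · norm_num
      · norm_num
        ring
    rw [Finset.prod_congr rfl h1, Finset.prod_const, Finset.card_powerset,
      Finset.card_erase_of_mem (Finset.mem_univ j), Finset.card_univ, Fintype.card_fin]
    congr 1
    have hk : k ≠ 0 := by
      rintro rfl
      exact j.elim0
    have h2 : 2 ^ k = 2 ^ (k - 1) * 2 := by
      rw [← pow_succ]
      congr 1
      omega
    rw [hf, h2] at hc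
    omega

section
variable {k : ℕ} {d : Fin k → ℤ} {K : Type} [Field K] [NumberField K] {x : Fin k → K}

open Classical in
/-- the product over the places above `p` -/
theorem fiber_prod (h : IsMQ d K x) {a b n : ℤ} (hn : n = 2 * (4 * a ^ 3 + 27 * b ^ 2) * ∏ i, d i)
    (p : Nat.Primes) (s : ℂ) :
    ∏ v : {v : HeightOneSpectrum (𝓞 K) // below v = p},
      (if ((n : ℤ) : 𝓞 K) ∈ v.1.asIdeal then (1 : ℂ)
        else (lpoly (trv a b v.1) 1 (Ideal.absNorm v.1.asIdeal) s)⁻¹) =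
      if ((p : ℕ) : ℤ) ∣ n then 1 else ∏ S : Finset (Fin k),
        (lpoly ((∏ i ∈ S, jacobiSym (d i) p) * trc (ZMod p) a b) 1 p s)⁻¹ := by
  by_cases hpn : ((p : ℕ) : ℤ) ∣ n
  · rw [if_pos hpn]
    refine Finset.prod_eq_one fun v _ => ?_
    rw [if_pos ((intCast_mem_iff _ _).2 (by rw [v.2]; exact hpn))]
  rw [if_neg hpn]
  have h2 : (p : ℕ) ≠ 2 := by
    intro h2
    apply hpn
    rw [h2, hn]
    exact (dvd_mul_right _ _).mul_right _
  have hDp : ¬ ((p : ℕ) : ℤ) ∣ 2 * (4 * a ^ 3 + 27 * b ^ 2) := fun h3 => hpn (by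
    rw [hn]
    exact h3.mul_right _)
  have hdp : ∀ i, ¬ ((p : ℕ) : ℤ) ∣ d i := fun i h3 => hpn (by
    rw [hn]
    exact (h3.trans (Finset.dvd_prod_of_mem d (Finset.mem_univ i))).mul_left _)
  obtain ⟨f, hf, hf1, hN, hcard⟩ := h.split p.2 h2 hdp
  have hmem : ∀ v : HeightOneSpectrum (𝓞 K), ((p : ℕ) : 𝓞 K) ∈ v.asIdeal ↔ below v = p := by
    intro v
    constructor
    · intro h3
      exact below_eq_of_mem K v h3
    · rintro rfl
      exact (nm_eq v).2.2
  have hcard' : Fintype.card {v : HeightOneSpectrum (𝓞 K) // below v = p} * f = 2 ^ k := by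
    rw [← hcard]
    congr 1
    rw [← Nat.card_eq_fintype_card]
    exact Nat.card_congr (Equiv.subtypeEquivRight fun v => (hmem v).symm)
  have hJ : ∀ i, jacobiSym (d i) p = 1 ∨ jacobiSym (d i) p = -1 := by
    intro i
    have hfp : Fact (p : ℕ).Prime := ⟨p.2⟩
    rw [← jacobiSym.legendreSym.to_jacobiSym]
    apply legendreSym.eq_one_or_neg_one
    rw [Ne, ZMod.intCast_zmod_eq_zero_iff_dvd]
    exact hdp i
  have key := prod_subsets (fun i => jacobiSym (d i) p) hJ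
    (fun j => (lpoly (j * trc (ZMod p) a b) 1 p s)⁻¹) f _ hf hf1 hcard'
  refine Eq.trans ?_ key.symm
  have hv : ∀ v : {v : HeightOneSpectrum (𝓞 K) // below v = p},
      (if ((n : ℤ) : 𝓞 K) ∈ v.1.asIdeal then (1 : ℂ)
        else (lpoly (trv a b v.1) 1 (Ideal.absNorm v.1.asIdeal) s)⁻¹) =
      if f = 1 then (lpoly (1 * trc (ZMod p) a b) 1 p s)⁻¹ else
        (lpoly (1 * trc (ZMod p) a b) 1 p s)⁻¹ * (lpoly (-1 * trc (ZMod p) a b) 1 p s)⁻¹ := by
    rintro ⟨v, hvp⟩
    have h3 : ¬ ((n : ℤ) : 𝓞 K) ∈ v.asIdeal := by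
      rw [intCast_mem_iff, hvp]
      exact hpn
    have hnv := hN v ((hmem v).2 hvp)
    have hdeg : deg v = f := by
      have h4 := (nm_eq v).1
      have h5 : nm v = Ideal.absNorm v.asIdeal := rfl
      rw [h5, hnv, hvp] at h4
      exact (Nat.pow_right_injective p.2.two_le h4).symm
    have h6 : trv a b v = luc (trc (ZMod p) a b) (p : ℕ) f := by
      have h7 := trv_good (a := a) (b := b) v (by rw [hvp]; exact hDp)
      rw [hdeg, hvp] at h7
      exact h7
    simp only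
    rw [if_neg h3, h6, hnv]
    rcases hf with rfl | rfl
    · rw [if_pos rfl, one_mul, pow_one]
      congr 2
    · rw [if_neg (by norm_num), lpoly_two p.2.ne_zero, mul_inv, one_mul]
      congr 3
      ring
  rw [Finset.prod_congr rfl fun v _ => hv v, Finset.prod_const, Finset.card_univ]

open Classical in
/-- **the Euler product over the multiquadratic field** -/
theorem hasProd_mq (h : IsMQ d K x) {a b n : ℤ}
    (hn : n = 2 * (4 * a ^ 3 + 27 * b ^ 2) * ∏ i, d i) (s : ℂ) (hs : 3 / 2 < s.re)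
    (G : Finset (Fin k) → ℂ)
    (hG : ∀ S, HasProd (fun p : Nat.Primes => if ((p : ℕ) : ℤ) ∣ n then 1 else
      (lpoly ((∏ i ∈ S, jacobiSym (d i) p) * trc (ZMod p) a b) 1 p s)⁻¹) (G S)) :
    HasProd (fun v : HeightOneSpectrum (𝓞 K) => if ((n : ℤ) : 𝓞 K) ∈ v.asIdeal then (1 : ℂ)
      else (lpoly (trv a b v) 1 (Ideal.absNorm v.asIdeal) s)⁻¹) (∏ S, G S) := by
  have h1 : HasProd (fun p : Nat.Primes => ∏ S : Finset (Fin k), if ((p : ℕ) : ℤ) ∣ n then 1 else
      (lpoly ((∏ i ∈ S, jacobiSym (d i) p) * trc (ZMod p) a b) 1 p s)⁻¹) (∏ S, G S) :=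
    hasProd_prod fun S _ => hG S
  have h2 : ∀ p : Nat.Primes, (∏ S : Finset (Fin k), if ((p : ℕ) : ℤ) ∣ n then (1 : ℂ) else
      (lpoly ((∏ i ∈ S, jacobiSym (d i) p) * trc (ZMod p) a b) 1 p s)⁻¹) =
      ∏ v : {v : HeightOneSpectrum (𝓞 K) // below v = p},
      (if ((n : ℤ) : 𝓞 K) ∈ v.1.asIdeal then (1 : ℂ)
        else (lpoly (trv a b v.1) 1 (Ideal.absNorm v.1.asIdeal) s)⁻¹) := by
    intro p
    rw [fiber_prod h hn p s]
    split_ifs
    · exact Finset.prod_eq_one fun _ _ => rfl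
    · rfl
  simp_rw [h2] at h1
  have h3 := multipliable_good (K := K) (a := a) (b := b) (n := n) (by
    rw [hn]
    exact (dvd_mul_right _ _).mul_right _) s hs
  rw [← (Equiv.sigmaFiberEquiv (below (K := K))).hasProd_iff]
  refine HasProd.sigma_of_hasProd h1 (fun p => ?_) ?_
  · exact hasProd_fintype _
  · exact (Equiv.sigmaFiberEquiv (below (K := K))).multipliable_iff.2 h3

end

end Pool.Agent.Helper92.MQ
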