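import Pool.Agent.Helper92.MQ.Lfun
import Pool.Agent.Y19.QT.ZD3

/-!
# Zeros of `L(E/K, s)` for the multiquadratic fields `K` (helper92)
-/

set_option autoImplicit false

open NumberField IsDedekindDomain Complex Filter Topology
open scoped ENNReal

namespace Pool.Agent.Helper92.MQ

open Pool.Agent.Y19.QT (IsLFun ap sqf mem_sqf zcount HasTwists Twists DensityLaw one_le_log
  zcount_eq)

/-- the number of the zeros in a box of a single L-function -/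
theorem zcount_bound {a b : ℤ} (hab : 4 * a ^ 3 + 27 * b ^ 2 ≠ 0) (h : HasTwists a b) :
    ∃ C : ℝ, 0 < C ∧ ∀ (D : ℤ) (F : ℂ → ℂ) (σ U : ℝ), Squarefree D →
      IsLFun (a * D ^ 2) (b * D ^ 3) F → 1 ≤ σ → 0 ≤ U →
      zcount F σ U ≤ ENNReal.ofReal (C * (1 + U) ^ 2 * (Real.log (|(D : ℝ)| + 1) + 1)) := by
  classical
  obtain ⟨Q, lam, ⟨T⟩, hQ, hlam⟩ := h
  obtain ⟨-, C, hC, hZ⟩ := Pool.Agent.Y500.QTZ4.Z4 T
  refine ⟨24 * C, by positivity, fun D F σ U hD hF hσ hU => ?_⟩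
  rw [zcount_eq a b hab T hQ hlam D hD F hF σ U (by linarith)]
  unfold zcount
  rw [ENNReal.tsum_eq_iSup_sum]
  refine iSup_le fun s => ?_
  obtain ⟨l, hl⟩ : ∃ l : ℝ, l = Real.log (|(D : ℝ)| + 1) := ⟨_, rfl⟩
  have hl0 : 0 ≤ l := by
    rw [hl]
    exact Real.log_nonneg (by linarith [abs_nonneg (D : ℝ)])
  rw [← hl]
  obtain ⟨S, hS⟩ : ∃ S : Finset ℂ, S = s.filter (fun ρ => T.Lq D ρ = 0 ∧ σ - 1 / 2 ≤ ρ.re ∧
    |ρ.im| ≤ U) := ⟨_, rfl⟩
  have hSm : ∀ ρ ∈ S, T.Lq D ρ = 0 ∧ σ - 1 / 2 ≤ ρ.re ∧ |ρ.im| ≤ U := by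
    intro ρ hρ
    rw [hS] at hρ
    exact (Finset.mem_filter.1 hρ).2
  obtain ⟨N, hN⟩ : ∃ N : ℤ, N = ⌈2 * U⌉ + 1 := ⟨_, rfl⟩
  have hN0 : 0 ≤ ⌈2 * U⌉ := Int.ceil_nonneg (by positivity)
  have hNU : (N : ℝ) ≤ 2 * U + 2 := by
    have := Int.ceil_lt_add_one (2 * U)
    rw [hN]
    push_cast
    linarith
  have hmaps : ∀ ρ ∈ S, round (2 * ρ.im) ∈ Finset.Icc (-N) N := by
    intro ρ hρ
    have h1 := (hSm ρ hρ).2.2
    have h2 := abs_sub_round (2 * ρ.im)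
    have h3 : |(round (2 * ρ.im) : ℝ)| ≤ 2 * U + 1 / 2 := by
      have h4 : |2 * ρ.im| ≤ 2 * U := by
        rw [abs_mul, abs_of_pos (by norm_num : (0 : ℝ) < 2)]
        linarith
      calc |(round (2 * ρ.im) : ℝ)| = |2 * ρ.im - (2 * ρ.im - round (2 * ρ.im))| := by ring_nf
        _ ≤ |2 * ρ.im| + |2 * ρ.im - round (2 * ρ.im)| := abs_sub _ _
        _ ≤ _ := by linarith
    have h5 := Int.le_ceil (2 * U)
    have h6 : |(round (2 * ρ.im) : ℝ)| ≤ (N : ℝ) := by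
      rw [hN]
      push_cast
      linarith
    have h7 : |round (2 * ρ.im)| ≤ N := by exact_mod_cast h6
    rw [Finset.mem_Icc]
    exact abs_le.1 h7
  have hfib : ∀ j ∈ Finset.Icc (-N) N, (∀ ρ ∈ S.filter (fun ρ => round (2 * ρ.im) = j),
      analyticOrderAt (T.Lq D) ρ ≠ ⊤) ∧
      ∑ ρ ∈ S.filter (fun ρ => round (2 * ρ.im) = j), ((analyticOrderAt (T.Lq D) ρ).toNat : ℝ) ≤
        C * (l + U + 2) := by
    intro j hj
    obtain ⟨h1, h2⟩ := hZ D (j / 2) (S.filter (fun ρ => round (2 * ρ.im) = j)) hD (by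
      intro ρ hρ
      rw [Finset.mem_filter] at hρ
      obtain ⟨h1, h2, h3⟩ := hSm ρ hρ.1
      refine ⟨h1, by linarith, ?_⟩
      have h4 := abs_sub_round (2 * ρ.im)
      rw [hρ.2] at h4
      have h5 : ρ.im - (j : ℝ) / 2 = (2 * ρ.im - j) / 2 := by ring
      rw [h5, abs_div, abs_of_pos (by norm_num : (0 : ℝ) < 2)]
      linarith)
    refine ⟨h1, h2.trans ?_⟩
    rw [← hl]
    refine mul_le_mul_of_nonneg_left ?_ hC.le
    rw [Finset.mem_Icc] at hj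
    have h3 : |(j : ℝ)| ≤ N := by
      have : |j| ≤ N := abs_le.2 hj
      exact_mod_cast this
    have h4 : |(j : ℝ) / 2| ≤ U + 1 := by
      rw [abs_div, abs_of_pos (by norm_num : (0 : ℝ) < 2)]
      linarith
    linarith
  have hne : ∀ ρ ∈ S, analyticOrderAt (T.Lq D) ρ ≠ ⊤ := fun ρ hρ =>
    (hfib _ (hmaps ρ hρ)).1 ρ (Finset.mem_filter.2 ⟨hρ, rfl⟩)
  have hsum : ∑ ρ ∈ S, ((analyticOrderAt (T.Lq D) ρ).toNat : ℝ) ≤
      24 * C * (1 + U) ^ 2 * (l + 1) := by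
    rw [← Finset.sum_fiberwise_of_maps_to hmaps]
    refine (Finset.sum_le_sum fun j hj => (hfib j hj).2).trans ?_
    rw [Finset.sum_const, Int.card_Icc, nsmul_eq_mul]
    have h1 : ((N + 1 - -N).toNat : ℝ) ≤ 4 * U + 5 := by
      have h2 : ((N + 1 - -N).toNat : ℤ) = N + 1 - -N := Int.toNat_of_nonneg (by omega)
      have h3 : ((N + 1 - -N).toNat : ℝ) = 2 * (N : ℝ) + 1 := by
        have h4 : (((N + 1 - -N).toNat : ℤ) : ℝ) = ((N + 1 - -N : ℤ) : ℝ) := by rw [h2]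
        push_cast at h4
        rw [h4]
        ring
      rw [h3]
      linarith
    have h5 : 0 ≤ C * (l + U + 2) := by positivity
    refine (mul_le_mul_of_nonneg_right h1 h5).trans ?_
    nlinarith [mul_nonneg hC.le hl0, mul_nonneg hC.le hU, mul_nonneg (mul_nonneg hC.le hU) hl0,
      mul_nonneg (mul_nonneg hC.le hU) hU, mul_nonneg (mul_nonneg (mul_nonneg hC.le hU) hU) hl0]
  refine le_trans (le_of_eq ?_) (ENNReal.ofReal_le_ofReal hsum)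
  rw [ENNReal.ofReal_sum_of_nonneg (fun _ _ => Nat.cast_nonneg _), hS, Finset.sum_filter]
  refine Finset.sum_congr rfl fun ρ hρ => ?_
  split_ifs with hρ'
  · have h2 := hne ρ (by
      rw [hS]
      exact Finset.mem_filter.2 ⟨hρ, hρ'⟩)
    rw [ENNReal.ofReal_natCast]
    conv_lhs => rw [← ENat.natCast_toNat h2]
    exact ENat.toENNReal_coe _
  · rfl

/-- Cauchy's inequality in numbers -/
theorem cs_num {k X : ℕ} (S : Finset (Fin k)) (hX : 3 ≤ X) (z : ℤ → ℝ) (hz : ∀ D, 0 ≤ z D) :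
    (X : ℝ) ^ S.card * (∑ d ∈ box (Fin k) X, z (sf (∏ i ∈ S, d i))) ^ 2 ≤
      (36 ^ k * 2 ^ (4 ^ k)) * ((X : ℝ) ^ k) ^ 2 * Real.log X ^ (4 ^ k) *
        ∑ D ∈ sqf (X ^ S.card), z D ^ 2 := by
  have hl := one_le_log hX
  obtain ⟨L, hL⟩ : ∃ L : ℝ, L = Real.log X := ⟨_, rfl⟩
  obtain ⟨m, hm⟩ : ∃ m : ℕ, m = S.card := ⟨_, rfl⟩
  have hmk : m ≤ k := by
    have := Finset.card_le_univ S
    rw [Fintype.card_fin] at this
    omega
  have hX0 : (1 : ℝ) ≤ X := by exact_mod_cast (by omega : 1 ≤ X)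
  have h1 := cs_sub (ι := Fin k) (by omega : 1 ≤ X) S z hz
  rw [Fintype.card_fin, ← hm, ← hL] at h1
  rw [← hL] at hl
  rw [← hm, ← hL]
  obtain ⟨W, hW⟩ : ∃ W : ℝ, W = ∑ D ∈ sqf (X ^ m), z D ^ 2 := ⟨_, rfl⟩
  have hW0 : 0 ≤ W := by rw [hW]; exact Finset.sum_nonneg fun _ _ => sq_nonneg _
  rw [← hW] at h1 ⊢
  have h2 : (1 + L) ^ (2 ^ (2 * m)) ≤ 2 ^ (4 ^ k) * L ^ (4 ^ k) := by
    have e1 : 2 ^ (2 * m) = 4 ^ m := by
      rw [pow_mul]
      norm_num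
    rw [e1, ← mul_pow]
    calc (1 + L) ^ (4 ^ m) ≤ (2 * L) ^ (4 ^ m) := pow_le_pow_left₀ (by linarith) (by linarith) _
      _ ≤ (2 * L) ^ (4 ^ k) :=
        pow_le_pow_right₀ (by linarith) (Nat.pow_le_pow_right (by norm_num) hmk)
  have h3 : (X : ℝ) ^ m * (((3 * X : ℝ) ^ (k - m)) ^ 2 * (4 * X : ℝ) ^ m) ≤
      36 ^ k * ((X : ℝ) ^ k) ^ 2 := by
    have e2 : ((X : ℝ) ^ k) = (X : ℝ) ^ (k - m) * (X : ℝ) ^ m := by
      rw [← pow_add]
      congr 1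
      omega
    have e3 : (X : ℝ) ^ m * (((3 * X : ℝ) ^ (k - m)) ^ 2 * (4 * X : ℝ) ^ m) =
        (9 ^ (k - m) * 4 ^ m) * ((X : ℝ) ^ k) ^ 2 := by
      rw [e2, mul_pow, mul_pow, mul_pow, mul_pow]
      have : ((3 : ℝ) ^ (k - m)) ^ 2 = 9 ^ (k - m) := by
        rw [← pow_mul, mul_comm, pow_mul]
        norm_num
      rw [this]
      ring
    rw [e3]
    refine mul_le_mul_of_nonneg_right ?_ (by positivity)
    calc (9 : ℝ) ^ (k - m) * 4 ^ m ≤ 9 ^ k * 4 ^ k :=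
          mul_le_mul (pow_le_pow_right₀ (by norm_num) (Nat.sub_le _ _))
            (pow_le_pow_right₀ (by norm_num) hmk) (by positivity) (by positivity)
      _ = 36 ^ k := by rw [← mul_pow]; norm_num
  calc (X : ℝ) ^ m * (∑ d ∈ box (Fin k) X, z (sf (∏ i ∈ S, d i))) ^ 2
      ≤ (X : ℝ) ^ m * (((3 * X : ℝ) ^ (k - m)) ^ 2 *
          ((4 * X : ℝ) ^ m * (1 + L) ^ (2 ^ (2 * m)) * W)) :=
        mul_le_mul_of_nonneg_left h1 (by positivity)
    _ = ((X : ℝ) ^ m * (((3 * X : ℝ) ^ (k - m)) ^ 2 * (4 * X : ℝ) ^ m)) *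
          ((1 + L) ^ (2 ^ (2 * m)) * W) := by ring
    _ ≤ (36 ^ k * ((X : ℝ) ^ k) ^ 2) * ((2 ^ (4 ^ k) * L ^ (4 ^ k)) * W) := by
        refine mul_le_mul h3 (mul_le_mul_of_nonneg_right h2 hW0) ?_ (by positivity)
        positivity
    _ = _ := by ring

theorem sqf_le {m X : ℕ} {D : ℤ} (hD : D ∈ sqf (X ^ m)) : |(D : ℝ)| ≤ (X : ℝ) ^ m := by
  have h1 := (mem_sqf.1 hD).1
  have h2 : ((|D| : ℤ) : ℝ) ≤ (((X ^ m : ℕ) : ℤ) : ℝ) := by exact_mod_cast h1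
  push_cast at h2
  exact h2

/-- **the density theorem** -/
theorem density_mq {a b : ℤ} (hab : 4 * a ^ 3 + 27 * b ^ 2 ≠ 0) (h : HasTwists a b)
    (F : ℤ → ℂ → ℂ) (hF : ∀ D : ℤ, Squarefree D → IsLFun (a * D ^ 2) (b * D ^ 3) (F D))
    (hden : ∃ (C c : ℝ) (A B : ℕ), 0 < c ∧ ∀ (X : ℕ) (σ U : ℝ), 3 ≤ X → 1 ≤ σ → 0 ≤ U →
      ∑ d ∈ sqf X, zcount (F d) σ U ≤
        ENNReal.ofReal (C * (1 + U) ^ B * (X : ℝ) ^ (1 - c * (σ - 1)) * Real.log X ^ A)) (k : ℕ) :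
    ∃ (C c : ℝ) (A B : ℕ), 0 < C ∧ 0 < c ∧ ∀ (X : ℕ) (σ U : ℝ), 3 ≤ X → 1 ≤ σ → 0 ≤ U →
      ∀ S : Finset (Fin k), S.Nonempty →
      ∑ d ∈ box (Fin k) X, zcount (F (sf (∏ i ∈ S, d i))) σ U ≤
        ENNReal.ofReal (C * (1 + U) ^ B * (X : ℝ) ^ (k - c * (σ - 1)) * Real.log X ^ A) := by
  classical
  obtain ⟨C₀, hC₀, hpt⟩ := zcount_bound hab h
  obtain ⟨C₁, c₁, A₁, B₁, hc₁, hden⟩ := hden
  obtain ⟨Q, hQ⟩ : ∃ Q : ℝ, Q = (36 ^ k * 2 ^ (4 ^ k)) * (C₀ * (k + 2)) * (|C₁| * k ^ A₁) :=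
    ⟨_, rfl⟩
  have hQ0 : 0 ≤ Q := by rw [hQ]; positivity
  refine ⟨1 + Q, c₁ / 2, 4 ^ k + 1 + A₁, 2 + B₁, by linarith, by positivity, ?_⟩
  intro X σ U hX hσ hU S hS
  obtain ⟨m, hm⟩ : ∃ m : ℕ, m = S.card := ⟨_, rfl⟩
  have hm1 : 1 ≤ m := by
    rw [hm]
    exact Finset.card_pos.2 hS
  have hmk : m ≤ k := by
    have := Finset.card_le_univ S
    rw [Fintype.card_fin] at this
    omega
  have hl := one_le_log hX
  obtain ⟨L, hL⟩ : ∃ L : ℝ, L = Real.log X := ⟨_, rfl⟩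
  rw [← hL] at hl ⊢
  have hX3 : (3 : ℝ) ≤ X := by exact_mod_cast hX
  have hX1 : (1 : ℝ) ≤ X := by linarith
  have hX0 : (0 : ℝ) < X := by linarith
  obtain ⟨V, hV⟩ : ∃ V : ℝ, V = 1 + U := ⟨_, rfl⟩
  have hV1 : 1 ≤ V := by linarith
  have hXm : 3 ≤ X ^ m := hX.trans (Nat.le_self_pow (by omega) X)
  -- the single L-functions
  obtain ⟨z, hz⟩ : ∃ z : ℤ → ℝ, z = fun D => (zcount (F D) σ U).toReal := ⟨_, rfl⟩
  have hz0 : ∀ D, 0 ≤ z D := fun D => by rw [hz]; exact ENNReal.toReal_nonneg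
  have hfin : ∀ D : ℤ, Squarefree D → zcount (F D) σ U ≠ ⊤ := fun D hD =>
    ne_top_of_le_ne_top ENNReal.ofReal_ne_top (hpt D (F D) σ U hD (hF D hD) hσ hU)
  have hzle : ∀ D ∈ sqf (X ^ m), z D ≤ C₀ * (k + 2) * V ^ 2 * L := by
    intro D hD
    have h1 := hpt D (F D) σ U (mem_sqf.1 hD).2 (hF D (mem_sqf.1 hD).2) hσ hU
    have h2 : 0 ≤ Real.log (|(D : ℝ)| + 1) := Real.log_nonneg (by linarith [abs_nonneg (D : ℝ)])
    have h3 : z D ≤ C₀ * (1 + U) ^ 2 * (Real.log (|(D : ℝ)| + 1) + 1) := by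
      rw [hz]
      exact ENNReal.toReal_le_of_le_ofReal (by positivity) h1
    refine h3.trans ?_
    have h4 : Real.log (|(D : ℝ)| + 1) ≤ (m + 1) * L := by
      have h5 : |(D : ℝ)| + 1 ≤ (X : ℝ) ^ (m + 1) := by
        have h6 := sqf_le hD
        have h7 : (1 : ℝ) ≤ (X : ℝ) ^ m := one_le_pow₀ hX1
        rw [pow_succ]
        nlinarith
      calc Real.log (|(D : ℝ)| + 1) ≤ Real.log ((X : ℝ) ^ (m + 1)) :=
            Real.log_le_log (by linarith [abs_nonneg (D : ℝ)]) h5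
        _ = (m + 1) * L := by
          rw [Real.log_pow, ← hL]
          push_cast
          ring
    have h5 : (m : ℝ) ≤ k := by exact_mod_cast hmk
    have h6 : Real.log (|(D : ℝ)| + 1) + 1 ≤ (k + 2) * L := by nlinarith
    rw [← hV]
    calc C₀ * V ^ 2 * (Real.log (|(D : ℝ)| + 1) + 1) ≤ C₀ * V ^ 2 * ((k + 2) * L) :=
          mul_le_mul_of_nonneg_left h6 (by positivity)
      _ = _ := by ring
  obtain ⟨w, hw⟩ : ∃ w : ℝ, w = (X : ℝ) ^ (-(c₁ * (σ - 1))) := ⟨_, rfl⟩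
  have hw0 : 0 < w := by rw [hw]; positivity
  have hzsum : ∑ D ∈ sqf (X ^ m), z D ≤ |C₁| * V ^ B₁ * ((X : ℝ) ^ m * w) * (k * L) ^ A₁ := by
    have h1 := hden (X ^ m) σ U hXm hσ hU
    have h2 : ∑ D ∈ sqf (X ^ m), z D = (∑ D ∈ sqf (X ^ m), zcount (F D) σ U).toReal := by
      rw [ENNReal.toReal_sum fun D hD => hfin D (mem_sqf.1 hD).2, hz]
    rw [h2]
    apply ENNReal.toReal_le_of_le_ofReal (by positivity)
    refine h1.trans (ENNReal.ofReal_le_ofReal ?_)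
    have h3 : ((X ^ m : ℕ) : ℝ) ^ (1 - c₁ * (σ - 1)) ≤ (X : ℝ) ^ m * w := by
      have h4 : (0 : ℝ) < (X : ℝ) ^ m := by positivity
      push_cast
      rw [sub_eq_add_neg, Real.rpow_add h4, Real.rpow_one]
      refine mul_le_mul_of_nonneg_left ?_ h4.le
      rw [hw]
      apply Real.rpow_le_rpow_of_nonpos hX0
      · exact le_self_pow₀ hX1 (by omega)
      · nlinarith
    have h5 : Real.log ((X ^ m : ℕ) : ℝ) ^ A₁ ≤ (k * L) ^ A₁ := by
      push_cast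
      rw [Real.log_pow, ← hL]
      refine pow_le_pow_left₀ (by positivity) ?_ _
      refine mul_le_mul_of_nonneg_right ?_ (by linarith)
      exact_mod_cast hmk
    have h6 : C₁ ≤ |C₁| := le_abs_self _
    have h7 : (0 : ℝ) ≤ ((X ^ m : ℕ) : ℝ) ^ (1 - c₁ * (σ - 1)) := by positivity
    have h8 : 0 ≤ Real.log ((X ^ m : ℕ) : ℝ) ^ A₁ := by
      apply pow_nonneg
      apply Real.log_nonneg
      push_cast
      exact one_le_pow₀ hX1
    rw [← hV]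
    have hV0 : 0 < V := by linarith
    calc C₁ * V ^ B₁ * ((X ^ m : ℕ) : ℝ) ^ (1 - c₁ * (σ - 1)) * Real.log ((X ^ m : ℕ) : ℝ) ^ A₁
        ≤ |C₁| * V ^ B₁ * ((X ^ m : ℕ) : ℝ) ^ (1 - c₁ * (σ - 1)) *
          Real.log ((X ^ m : ℕ) : ℝ) ^ A₁ := by gcongr
      _ ≤ |C₁| * V ^ B₁ * ((X : ℝ) ^ m * w) * (k * L) ^ A₁ := by gcongr
  have hzsq : ∑ D ∈ sqf (X ^ m), z D ^ 2 ≤ (C₀ * (k + 2) * V ^ 2 * L) *
      (|C₁| * V ^ B₁ * ((X : ℝ) ^ m * w) * (k * L) ^ A₁) := by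
    calc ∑ D ∈ sqf (X ^ m), z D ^ 2 ≤ ∑ D ∈ sqf (X ^ m), (C₀ * (k + 2) * V ^ 2 * L) * z D := by
          refine Finset.sum_le_sum fun D hD => ?_
          rw [pow_two]
          exact mul_le_mul_of_nonneg_right (hzle D hD) (hz0 D)
      _ = (C₀ * (k + 2) * V ^ 2 * L) * ∑ D ∈ sqf (X ^ m), z D := by rw [Finset.mul_sum]
      _ ≤ _ := mul_le_mul_of_nonneg_left hzsum (by positivity)
  have hcs := cs_num S hX z hz0
  rw [← hm, ← hL] at hcs
  obtain ⟨zs, hzs⟩ : ∃ zs : ℝ, zs = ∑ d ∈ box (Fin k) X, z (sf (∏ i ∈ S, d i)) := ⟨_, rfl⟩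
  rw [← hzs] at hcs
  obtain ⟨E, hE⟩ : ∃ E : ℝ, E = V ^ (2 + B₁) * (X : ℝ) ^ (k - c₁ / 2 * (σ - 1)) *
    L ^ (4 ^ k + 1 + A₁) := ⟨_, rfl⟩
  have hE0 : 0 ≤ E := by rw [hE]; positivity
  have hsq : zs ^ 2 ≤ Q * E ^ 2 := by
    have hXm0 : (0 : ℝ) < (X : ℝ) ^ m := by positivity
    have h1 : (X : ℝ) ^ m * zs ^ 2 ≤ (X : ℝ) ^ m * (Q * (V ^ (2 + B₁) * ((X : ℝ) ^ k) ^ 2 * w *
        L ^ (4 ^ k + 1 + A₁))) := by
      refine hcs.trans ?_
      refine (mul_le_mul_of_nonneg_left hzsq (by positivity)).trans (le_of_eq ?_)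
      rw [hQ, mul_pow]
      ring
    have h2 := le_of_mul_le_mul_left h1 hXm0
    refine h2.trans (mul_le_mul_of_nonneg_left ?_ hQ0)
    have h3 : ((X : ℝ) ^ (k - c₁ / 2 * (σ - 1))) ^ 2 = ((X : ℝ) ^ k) ^ 2 * w := by
      rw [hw, ← Real.rpow_natCast, ← Real.rpow_mul hX0.le, ← Real.rpow_natCast (X : ℝ) k,
        ← Real.rpow_natCast _ 2, ← Real.rpow_mul hX0.le, ← Real.rpow_add hX0]
      congr 1
      push_cast
      ring
    rw [hE, mul_pow, mul_pow, h3]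
    have h4 : V ^ (2 + B₁) ≤ (V ^ (2 + B₁)) ^ 2 := by
      have := one_le_pow₀ hV1 (n := 2 + B₁)
      nlinarith
    have h5 : L ^ (4 ^ k + 1 + A₁) ≤ (L ^ (4 ^ k + 1 + A₁)) ^ 2 := by
      have := one_le_pow₀ hl (n := 4 ^ k + 1 + A₁)
      nlinarith
    have h6 : 0 ≤ ((X : ℝ) ^ k) ^ 2 * w := by positivity
    calc V ^ (2 + B₁) * ((X : ℝ) ^ k) ^ 2 * w * L ^ (4 ^ k + 1 + A₁)
        = V ^ (2 + B₁) * (((X : ℝ) ^ k) ^ 2 * w) * L ^ (4 ^ k + 1 + A₁) := by ring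
      _ ≤ (V ^ (2 + B₁)) ^ 2 * (((X : ℝ) ^ k) ^ 2 * w) * (L ^ (4 ^ k + 1 + A₁)) ^ 2 := by
          have h7 : (0 : ℝ) ≤ V ^ (2 + B₁) := by positivity
          have h8 : (0 : ℝ) ≤ L ^ (4 ^ k + 1 + A₁) := by positivity
          gcongr
  have hzs1 : zs ≤ (1 + Q) * E := by
    apply le_of_sq_le_sq _ (by positivity)
    refine hsq.trans ?_
    rw [mul_pow]
    refine mul_le_mul_of_nonneg_right ?_ (sq_nonneg E)
    nlinarith
  have hfinal : ∑ d ∈ box (Fin k) X, zcount (F (sf (∏ i ∈ S, d i))) σ U = ENNReal.ofReal zs := by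
    rw [hzs, ENNReal.ofReal_sum_of_nonneg fun d _ => hz0 _]
    refine Finset.sum_congr rfl fun d _ => ?_
    rw [hz]
    exact (ENNReal.ofReal_toReal (hfin _ (sf_squarefree _))).symm
  rw [hfinal]
  refine ENNReal.ofReal_le_ofReal (hzs1.trans (le_of_eq ?_))
  rw [hE, hV]
  ring

/-- **almost all multiquadratic fields** -/
theorem far_mq (F : ℤ → ℂ → ℂ)
    (hfar : ∀ K : ℕ, ∃ C K' : ℝ, ∀ (X : ℕ) (S : Finset ℤ), 3 ≤ X → S ⊆ sqf X →
      (∀ d ∈ S, ∃ ρ : ℂ, F d ρ = 0 ∧ 3 / 4 < ρ.re ∧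
        K' * ((Real.log (Real.log X) + Real.log (2 + |ρ.im|)) / Real.log X) ≤ |ρ.re - 1|) →
      (S.card : ℝ) ≤ C * X / Real.log X ^ K) (k B : ℕ) :
    ∃ C K' : ℝ, ∀ (X : ℕ) (T : Finset (Fin k → ℤ)), 3 ≤ X → T ⊆ box (Fin k) X →
      (∀ d ∈ T, ∃ S : Finset (Fin k), S.Nonempty ∧ ∃ ρ : ℂ, F (sf (∏ i ∈ S, d i)) ρ = 0 ∧
        3 / 4 < ρ.re ∧
        K' * ((Real.log (Real.log X) + Real.log (2 + |ρ.im|)) / Real.log X) ≤ |ρ.re - 1|) →
      (T.card : ℝ) ≤ C * (X : ℝ) ^ k / Real.log X ^ B := by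
  classical
  obtain ⟨C₀, K₀, hfar⟩ := hfar (2 * B + 4 ^ k)
  obtain ⟨Q, hQ⟩ : ∃ Q : ℝ, Q = (36 ^ k * 2 ^ (4 ^ k)) * |C₀| := ⟨_, rfl⟩
  have hQ0 : 0 ≤ Q := by rw [hQ]; positivity
  refine ⟨2 ^ k * (1 + Q), |K₀| * (1 + 2 * k), fun X T hX hT hTρ => ?_⟩
  have hl := one_le_log hX
  obtain ⟨L, hL⟩ : ∃ L : ℝ, L = Real.log X := ⟨_, rfl⟩
  rw [← hL] at hl hTρ ⊢
  have hL0 : 0 < L := by linarith
  have hX3 : (3 : ℝ) ≤ X := by exact_mod_cast hX
  have hX1 : (1 : ℝ) ≤ X := by linarith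
  have hX0 : (0 : ℝ) < X := by linarith
  obtain ⟨bad, hbad⟩ : ∃ bad : Finset (Fin k) → Finset ℤ, bad = fun S =>
    (sqf (X ^ S.card)).filter (fun D => ∃ ρ : ℂ, F D ρ = 0 ∧ 3 / 4 < ρ.re ∧
      K₀ * ((Real.log (Real.log ((X ^ S.card : ℕ) : ℝ)) + Real.log (2 + |ρ.im|)) /
        Real.log ((X ^ S.card : ℕ) : ℝ)) ≤ |ρ.re - 1|) := ⟨_, rfl⟩
  have hbadm : ∀ (S : Finset (Fin k)) (m : ℕ), m = S.card → ∀ D, D ∈ bad S ↔
      D ∈ sqf (X ^ m) ∧ ∃ ρ : ℂ, F D ρ = 0 ∧ 3 / 4 < ρ.re ∧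
      K₀ * ((Real.log (Real.log ((X ^ m : ℕ) : ℝ)) + Real.log (2 + |ρ.im|)) /
        Real.log ((X ^ m : ℕ) : ℝ)) ≤ |ρ.re - 1| := by
    intro S m hm D
    rw [hbad, hm]
    exact Finset.mem_filter
  have hone : ∀ S : Finset (Fin k), S.Nonempty →
      (((box (Fin k) X).filter fun d => sf (∏ i ∈ S, d i) ∈ bad S).card : ℝ) ≤
        (1 + Q) * (X : ℝ) ^ k / L ^ B := by
    intro S hS
    obtain ⟨m, hm⟩ : ∃ m : ℕ, m = S.card := ⟨_, rfl⟩
    have hm1 : 1 ≤ m := by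
      rw [hm]
      exact Finset.card_pos.2 hS
    have hXm : 3 ≤ X ^ m := hX.trans (Nat.le_self_pow (by omega) X)
    obtain ⟨z, hz⟩ : ∃ z : ℤ → ℝ, z = fun D => if D ∈ bad S then 1 else 0 := ⟨_, rfl⟩
    have hz0 : ∀ D, 0 ≤ z D := fun D => by
      rw [hz]
      simp only
      split_ifs <;> norm_num
    have hcs := cs_num S hX z hz0
    rw [← hm, ← hL] at hcs
    have h1 : ∑ d ∈ box (Fin k) X, z (sf (∏ i ∈ S, d i)) =
        (((box (Fin k) X).filter fun d => sf (∏ i ∈ S, d i) ∈ bad S).card : ℝ) := by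
      rw [hz, Finset.card_filter]
      push_cast
      rfl
    have h2 : ∑ D ∈ sqf (X ^ m), z D ^ 2 ≤ ((bad S).card : ℝ) := by
      have h3 : ∑ D ∈ sqf (X ^ m), z D ^ 2 = (((sqf (X ^ m)).filter fun D => D ∈ bad S).card : ℝ) := by
        rw [hz, Finset.card_filter]
        push_cast
        refine Finset.sum_congr rfl fun D _ => ?_
        split_ifs <;> norm_num
      rw [h3]
      exact_mod_cast Finset.card_le_card fun D hD => (Finset.mem_filter.1 hD).2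
    have hL' : L ≤ Real.log ((X ^ m : ℕ) : ℝ) := by
      rw [hL]
      refine Real.log_le_log hX0 ?_
      push_cast
      exact le_self_pow₀ hX1 (by omega)
    have h4 : ((bad S).card : ℝ) ≤ |C₀| * (X : ℝ) ^ m / L ^ (2 * B + 4 ^ k) := by
      have h5 := hfar (X ^ m) (bad S) hXm (fun D hD => ((hbadm S m hm D).1 hD).1)
        (fun D hD => ((hbadm S m hm D).1 hD).2)
      refine h5.trans ?_
      push_cast
      push_cast at hL'
      have h6 : C₀ ≤ |C₀| := le_abs_self _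
      gcongr
    rw [h1] at hcs
    obtain ⟨c, hc⟩ : ∃ c : ℝ, c = (((box (Fin k) X).filter
      fun d => sf (∏ i ∈ S, d i) ∈ bad S).card : ℝ) := ⟨_, rfl⟩
    rw [← hc] at hcs ⊢
    have hXm0 : (0 : ℝ) < (X : ℝ) ^ m := by positivity
    have h7 : (X : ℝ) ^ m * c ^ 2 ≤ (X : ℝ) ^ m * (Q * (((X : ℝ) ^ k) ^ 2 / (L ^ B) ^ 2)) := by
      refine hcs.trans ?_
      refine (mul_le_mul_of_nonneg_left (h2.trans h4) (by positivity)).trans (le_of_eq ?_)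
      rw [hQ, pow_add, mul_comm 2 B, pow_mul L B 2]
      field_simp
    have h8 := le_of_mul_le_mul_left h7 hXm0
    apply le_of_sq_le_sq _ (by positivity)
    refine h8.trans ?_
    have h9 : ((1 + Q) * (X : ℝ) ^ k / L ^ B) ^ 2 =
        (1 + Q) ^ 2 * (((X : ℝ) ^ k) ^ 2 / (L ^ B) ^ 2) := by
      rw [div_pow, mul_pow]
      ring
    rw [h9]
    refine mul_le_mul_of_nonneg_right ?_ (by positivity)
    nlinarith
  -- the union over the subsets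
  have hsub : T ⊆ (Finset.univ.filter fun S : Finset (Fin k) => S.Nonempty).biUnion fun S =>
      (box (Fin k) X).filter fun d => sf (∏ i ∈ S, d i) ∈ bad S := by
    intro d hd
    obtain ⟨S, hS, ρ, h1, h2, h3⟩ := hTρ d hd
    rw [Finset.mem_biUnion]
    refine ⟨S, Finset.mem_filter.2 ⟨Finset.mem_univ _, hS⟩, Finset.mem_filter.2 ⟨hT hd, ?_⟩⟩
    obtain ⟨m, hm⟩ : ∃ m : ℕ, m = S.card := ⟨_, rfl⟩
    have hm1 : 1 ≤ m := by
      rw [hm]
      exact Finset.card_pos.2 hS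
    have hmk : m ≤ k := by
      have := Finset.card_le_univ S
      rw [Fintype.card_fin] at this
      omega
    refine (hbadm S m hm _).2 ⟨?_, ρ, h1, h2, ?_⟩
    · rw [mem_sqf]
      refine ⟨?_, sf_squarefree _⟩
      refine (sf_abs_le (box_ne (hT hd) S)).trans ?_
      rw [Finset.abs_prod]
      push_cast
      calc ∏ i ∈ S, |d i| ≤ ∏ _i ∈ S, (X : ℤ) :=
            Finset.prod_le_prod (fun i _ => abs_nonneg _) fun i _ => (mem_box.1 (hT hd) i).1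
        _ = _ := by rw [Finset.prod_const, hm]
    · refine le_trans ?_ h3
      push_cast
      rw [Real.log_pow, ← hL]
      have hm1' : (1 : ℝ) ≤ m := by exact_mod_cast hm1
      have hmk' : (m : ℝ) ≤ k := by exact_mod_cast hmk
      have hLL : 0 ≤ Real.log L := Real.log_nonneg hl
      have h4 : Real.log (m * L) = Real.log m + Real.log L :=
        Real.log_mul (by positivity) (by positivity)
      have h5 : Real.log m ≤ k := by
        have := Real.log_le_sub_one_of_pos (by positivity : (0 : ℝ) < m)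
        linarith
      have h5' : 0 ≤ Real.log m := Real.log_nonneg hm1'
      have h6 : 1 / 2 ≤ Real.log (2 + |ρ.im|) := by
        have h7 : Real.log 2 ≤ Real.log (2 + |ρ.im|) :=
          Real.log_le_log (by norm_num) (by linarith [abs_nonneg ρ.im])
        have := Real.log_two_gt_d9
        linarith
      rw [h4]
      have h8 : (Real.log m + Real.log L + Real.log (2 + |ρ.im|)) / (m * L) ≤
          (1 + 2 * k) * ((Real.log L + Real.log (2 + |ρ.im|)) / L) := by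
        have h9 : (Real.log m + Real.log L + Real.log (2 + |ρ.im|)) / (m * L) ≤
            (Real.log m + Real.log L + Real.log (2 + |ρ.im|)) / L := by
          apply div_le_div_of_nonneg_left (by linarith) hL0
          nlinarith
        refine h9.trans ?_
        rw [mul_div_assoc', div_le_div_iff_of_pos_right hL0]
        have h10 : (0 : ℝ) ≤ k := Nat.cast_nonneg k
        nlinarith
      have h11 : 0 ≤ (Real.log m + Real.log L + Real.log (2 + |ρ.im|)) / (m * L) := by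
        apply div_nonneg (by linarith) (by positivity)
      calc K₀ * ((Real.log m + Real.log L + Real.log (2 + |ρ.im|)) / (m * L))
          ≤ |K₀| * ((Real.log m + Real.log L + Real.log (2 + |ρ.im|)) / (m * L)) :=
            mul_le_mul_of_nonneg_right (le_abs_self _) h11
        _ ≤ |K₀| * ((1 + 2 * k) * ((Real.log L + Real.log (2 + |ρ.im|)) / L)) :=
            mul_le_mul_of_nonneg_left h8 (abs_nonneg _)
        _ = _ := by ring
  have h1 : (T.card : ℝ) ≤ ∑ S ∈ Finset.univ.filter (fun S : Finset (Fin k) => S.Nonempty),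
      (((box (Fin k) X).filter fun d => sf (∏ i ∈ S, d i) ∈ bad S).card : ℝ) := by
    exact_mod_cast (Finset.card_le_card hsub).trans Finset.card_biUnion_le
  refine h1.trans ?_
  refine (Finset.sum_le_sum fun S hS => hone S (Finset.mem_filter.1 hS).2).trans ?_
  rw [Finset.sum_const, nsmul_eq_mul]
  have h2 : (((Finset.univ.filter fun S : Finset (Fin k) => S.Nonempty).card : ℕ) : ℝ) ≤ 2 ^ k := by
    have h3 := Finset.card_filter_le (Finset.univ : Finset (Finset (Fin k))) (fun S => S.Nonempty)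
    rw [Finset.card_univ, Fintype.card_finset, Fintype.card_fin] at h3
    exact_mod_cast h3
  calc _ ≤ 2 ^ k * ((1 + Q) * (X : ℝ) ^ k / L ^ B) :=
        mul_le_mul_of_nonneg_right h2 (by positivity)
    _ = _ := by ring

end Pool.Agent.Helper92.MQ
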