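import Pool.Agent.Helper92.MQ.Loc
import Pool.Agent.Helper92.MQ.Bad
import Pool.Agent.Y19.QT.Forms
import Pool.Agent.Y705.QT.Pts

/-!
# The L-functions of the quadratic twists, without finitely many Euler factors (helper92)
-/

set_option autoImplicit false

open NumberField IsDedekindDomain Complex Filter Topology

namespace Pool.Agent.Helper92.MQ

open Pool.Agent.Helper92.CM (trc trc_ext trc_sq_le)
open Pool.Agent.W164.RC (lpoly lpoly_ne lpoly_diff Poss order_mul_ne)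
open Pool.Agent.Y19.QT (IsLFun ap)

theorem trc_ap (a b : ℤ) (p : ℕ) [NeZero p] : trc (ZMod p) a b = ap a b p := by
  unfold trc ap
  rw [Nat.card_zmod]

/-- the condition on `p` in the Euler product of the twist -/
def badp (a b D : ℤ) (p : ℕ) : Prop := (p : ℤ) ∣ 2 * (-4 * (a * D ^ 2) ^ 3 - 27 * (b * D ^ 3) ^ 2)

open Classical in
/-- the Euler polynomial of the twist at `p` -/
noncomputable def eD (a b D : ℤ) (p : ℕ) (s : ℂ) : ℂ :=
  if badp a b D p then 1 else lpoly (ap (a * D ^ 2) (b * D ^ 3) p) 1 p s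

theorem badp_iff {a b D : ℤ} {p : ℕ} (hp : p.Prime) : badp a b D p ↔
    (p : ℤ) ∣ 2 * (4 * a ^ 3 + 27 * b ^ 2) ∨ (p : ℤ) ∣ D := by
  have hpi : Prime (p : ℤ) := Nat.prime_iff_prime_int.1 hp
  unfold badp
  have h1 : 2 * (-4 * (a * D ^ 2) ^ 3 - 27 * (b * D ^ 3) ^ 2) =
      -((2 * (4 * a ^ 3 + 27 * b ^ 2)) * D ^ 6) := by ring
  rw [h1, dvd_neg, hpi.dvd_mul, hpi.dvd_pow_iff_dvd (by norm_num)]

theorem two_bad {a b D : ℤ} : badp a b D 2 := by
  unfold badp
  exact_mod_cast dvd_mul_right _ _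

theorem eD_diff (a b D : ℤ) {p : ℕ} (hp : p.Prime) : Differentiable ℂ (eD a b D p) := by
  unfold eD
  by_cases h : badp a b D p
  · simp only [if_pos h]
    exact differentiable_const _
  · simp only [if_neg h]
    exact lpoly_diff _ _ hp.two_le

theorem ap_poss (a b : ℤ) {p : ℕ} (hp : p.Prime) (h2 : p ≠ 2) :
    (ap a b p) ^ 2 ≤ 4 * (p : ℤ) := by
  have hfp : Fact p.Prime := ⟨hp⟩
  have h2' : (2 : ZMod p) ≠ 0 := by
    intro h
    have h4 : ((2 : ℤ) : ZMod p) = 0 := by exact_mod_cast h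
    rw [ZMod.intCast_zmod_eq_zero_iff_dvd] at h4
    exact h2 ((Nat.prime_dvd_prime_iff_eq hp Nat.prime_two).1 (by exact_mod_cast h4))
  have h := trc_sq_le h2' a b
  rw [trc_ap, Nat.card_zmod] at h
  exact h

theorem eD_ne (a b D : ℤ) {p : ℕ} (hp : p.Prime) {s : ℂ} (hs : 1 / 2 < s.re) :
    eD a b D p s ≠ 0 := by
  unfold eD
  by_cases h : badp a b D p
  · simp only [if_pos h]
    exact one_ne_zero
  · simp only [if_neg h]
    have h2 : p ≠ 2 := by
      rintro rfl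
      exact h two_bad
    exact lpoly_ne hp.two_le (Or.inl ⟨rfl, ap_poss _ _ hp h2⟩) hs

/-- the Euler product over the primes -/
theorem hasProd_eD {a b D : ℤ} {F : ℂ → ℂ} (hF : IsLFun (a * D ^ 2) (b * D ^ 3) F) (s : ℂ)
    (hs : 3 / 2 < s.re) : HasProd (fun p : Nat.Primes => (eD a b D p s)⁻¹) (F s) := by
  classical
  have h1 := hF.2 s hs
  have h2 : HasProd ((fun p : ℕ =>
      if p.Prime ∧ ¬ ((p : ℤ) ∣ 2 * (-4 * (a * D ^ 2) ^ 3 - 27 * (b * D ^ 3) ^ 2)) then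
        (1 - ((p : ℂ) - (Nat.card {q : ZMod p × ZMod p //
            q.2 ^ 2 = q.1 ^ 3 + ((a * D ^ 2 : ℤ) : ZMod p) * q.1 + ((b * D ^ 3 : ℤ) : ZMod p)} : ℂ))
            * (p : ℂ) ^ (-s) + (p : ℂ) ^ (1 - 2 * s))⁻¹
      else 1) ∘ ((↑) : Nat.Primes → ℕ)) (F s) := by
    refine (hasProd_subtype_iff_of_mulSupport_subset (s := {p : ℕ | Nat.Prime p}) ?_).2 h1
    intro p hp
    rw [Function.mem_mulSupport] at hp
    by_contra hnp
    apply hp
    rw [if_neg]
    rintro ⟨h3, -⟩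
    exact hnp h3
  refine h2.congr_fun fun p => ?_
  have hp := p.2
  simp only [Function.comp_apply]
  unfold eD badp
  by_cases h : ((p : ℕ) : ℤ) ∣ 2 * (-4 * (a * D ^ 2) ^ 3 - 27 * (b * D ^ 3) ^ 2)
  · rw [if_pos h, if_neg (fun h3 => h3.2 h), inv_one]
  · rw [if_neg h, if_pos ⟨p.2, h⟩]
    unfold lpoly ap
    push_cast
    rw [one_mul]

/-- the primes dividing `n` -/
theorem primes_finite {n : ℤ} (hn : n ≠ 0) : {p : Nat.Primes | ((p : ℕ) : ℤ) ∣ n}.Finite := by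
  refine Set.Finite.of_finite_image (f := fun p : Nat.Primes => (p : ℕ)) ?_
    (fun a _ b _ h => Subtype.ext h)
  refine (n.natAbs.primeFactors.finite_toSet).subset ?_
  rintro _ ⟨p, hp, rfl⟩
  rw [Set.mem_ofPred_eq, Int.natCast_dvd] at hp
  exact Nat.mem_primeFactors.2 ⟨p.2, hp, Int.natAbs_ne_zero.2 hn⟩

open Classical in
/-- the L-function without the Euler factors at the primes dividing `n` -/
theorem strip {a b D : ℤ} {F : ℂ → ℂ} (hF : IsLFun (a * D ^ 2) (b * D ^ 3) F) {n : ℤ}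
    (hn : n ≠ 0) : ∃ G : ℂ → ℂ, Differentiable ℂ G ∧
      (∀ s : ℂ, 3 / 2 < s.re → HasProd (fun p : Nat.Primes => if ((p : ℕ) : ℤ) ∣ n then 1 else
        (eD a b D p s)⁻¹) (G s)) ∧
      ∀ s : ℂ, 1 / 2 < s.re → analyticOrderAt G s = analyticOrderAt F s := by
  have hfin := primes_finite hn
  obtain ⟨P, hP⟩ : ∃ P : Finset Nat.Primes, P = hfin.toFinset := ⟨_, rfl⟩
  have hPm : ∀ p, p ∈ P ↔ ((p : ℕ) : ℤ) ∣ n := fun p => by
    rw [hP, Set.Finite.mem_toFinset]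
    exact Iff.rfl
  obtain ⟨R, hR⟩ : ∃ R : ℂ → ℂ, R = fun s => ∏ p ∈ P, eD a b D p s := ⟨_, rfl⟩
  have hRd : Differentiable ℂ R := by
    rw [hR]
    exact Differentiable.fun_finsetProd fun p _ => eD_diff a b D p.2
  refine ⟨fun s => F s * R s, hF.1.mul hRd, fun s hs => ?_, fun s hs => ?_⟩
  · have h1 := hasProd_eD hF s hs
    have h2 : HasProd (fun p : Nat.Primes => if p ∈ P then eD a b D p s else 1) (R s) := by
      have h3 : R s = ∏ p ∈ P, (if p ∈ P then eD a b D p s else 1) := by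
        rw [hR]
        exact Finset.prod_congr rfl fun p hp => by rw [if_pos hp]
      rw [h3]
      apply hasProd_prod_of_ne_finset_one
      intro p hp
      rw [if_neg hp]
    refine (h1.mul h2).congr_fun fun p => ?_
    by_cases h : ((p : ℕ) : ℤ) ∣ n
    · rw [if_pos h, if_pos ((hPm p).2 h),
        inv_mul_cancel₀ (eD_ne a b D p.2 (by linarith))]
    · rw [if_neg h, if_neg (fun h3 => h ((hPm p).1 h3)), mul_one]
  · apply order_mul_ne (hF.1.analyticAt s) (hRd.analyticAt s)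
    rw [hR]
    simp only
    rw [Finset.prod_ne_zero_iff]
    exact fun p _ => eD_ne a b D p.2 hs

theorem jacobi_prod {k : ℕ} (d : Fin k → ℤ) (S : Finset (Fin k)) (p : ℕ) :
    jacobiSym (∏ i ∈ S, d i) p = ∏ i ∈ S, jacobiSym (d i) p := by
  classical
  induction S using Finset.induction_on with
  | empty => simp
  | insert i S hi ih =>
    rw [Finset.prod_insert hi, Finset.prod_insert hi, jacobiSym.mul_left, ih]

/-- the Euler polynomial of the twist in terms of that of the curve -/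
theorem eD_eq {a b n : ℤ} {k : ℕ} {d : Fin k → ℤ} (hd0 : ∀ i, d i ≠ 0)
    (hn : n = 2 * (4 * a ^ 3 + 27 * b ^ 2) * ∏ i, d i) (S : Finset (Fin k)) {p : ℕ}
    (hp : p.Prime) (hpn : ¬ (p : ℤ) ∣ n) (s : ℂ) :
    eD a b (sf (∏ i ∈ S, d i)) p s =
      lpoly ((∏ i ∈ S, jacobiSym (d i) p) * ap a b p) 1 p s := by
  have hfp : Fact p.Prime := ⟨hp⟩
  have hpi : Prime (p : ℤ) := Nat.prime_iff_prime_int.1 hp
  have h2 : p ≠ 2 := by
    intro h2
    apply hpn
    rw [h2, hn]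
    exact (dvd_mul_right _ _).mul_right _
  have hDp : ¬ (p : ℤ) ∣ 2 * (4 * a ^ 3 + 27 * b ^ 2) := fun h3 => hpn (by
    rw [hn]
    exact h3.mul_right _)
  have hPS : ¬ (p : ℤ) ∣ ∏ i ∈ S, d i := fun h3 => hpn (by
    rw [hn]
    exact (h3.trans (Finset.prod_dvd_prod_of_subset _ _ _ (Finset.subset_univ S))).mul_left _)
  obtain ⟨D, hD⟩ : ∃ D, D = sf (∏ i ∈ S, d i) := ⟨_, rfl⟩
  obtain ⟨g, hg0, hg⟩ := sf_spec (n := ∏ i ∈ S, d i) (Finset.prod_ne_zero_iff.2 fun i _ => hd0 i)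
  rw [← hD] at hg ⊢
  have hpD : ¬ (p : ℤ) ∣ D := fun h3 => hPS (by
    rw [hg]
    exact h3.mul_right _)
  have hpg : ¬ (p : ℤ) ∣ g := fun h3 => hPS (by
    rw [hg]
    exact (h3.trans (dvd_pow_self g (by norm_num))).mul_left _)
  have hbad : ¬ badp a b D p := by
    rw [badp_iff hp]
    rintro (h3 | h3)
    · exact hDp h3
    · exact hpD h3
  unfold eD
  rw [if_neg hbad]
  have h3 := Pool.Agent.Y705.QT.ap_twist a b D p hp h2 hpD
  have h4 : ((ap (a * D ^ 2) (b * D ^ 3) p : ℤ) : ℝ) = ((jacobiSym D p : ℤ) : ℝ) * (ap a b p : ℝ) :=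
    h3
  have h5 : (ap (a * D ^ 2) (b * D ^ 3) p : ℤ) = jacobiSym D p * ap a b p := by exact_mod_cast h4
  have h6 := jacobi_prod d S p
  have h7 : jacobiSym (∏ i ∈ S, d i) p = jacobiSym D p := by
    rw [hg, jacobiSym.mul_left, pow_two, jacobiSym.mul_left]
    have h8 : jacobiSym g p = 1 ∨ jacobiSym g p = -1 := by
      rw [← jacobiSym.legendreSym.to_jacobiSym]
      apply legendreSym.eq_one_or_neg_one
      rw [Ne, ZMod.intCast_zmod_eq_zero_iff_dvd]
      exact hpg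
    rcases h8 with h8 | h8 <;> rw [h8] <;> norm_num
  rw [h5, ← h6, h7]

end Pool.Agent.Helper92.MQ
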